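import Pool.Agent.Lib.MP_acc6f5_ag.Edge

/-!
# Complete algebraic vector fields on the torus are divergence free: conclusion
-/

open scoped Topology NNReal
open Filter Metric Set Finset

namespace Pool.Agent.Lib.MP_acc6f5_ag

/-- The dot product with a vector. -/
def dotHom (e : ℤ × ℤ) : ℤ × ℤ →+ ℤ where
  toFun x := x.1 * e.1 + x.2 * e.2
  map_zero' := by simp
  map_add' x y := by simp only [Prod.fst_add, Prod.snd_add]; ring

lemma dotHom_apply (e x : ℤ × ℤ) : dotHom e x = x.1 * e.1 + x.2 * e.2 := rfl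

/-- The case of an edge not on a line through the origin is impossible. -/
lemma no_edge {D : Derivation ℂ L L} (h : ∀ a, SB D a) (ℓ : ℤ × ℤ →+ ℤ) (m : ℤ) (hm : m ≠ 0)
    (hle : ∀ x ∈ supp D, ℓ x ≤ m) (v w : ℤ × ℤ) (hv : v ∈ supp D) (hw : w ∈ supp D) (hvw : v ≠ w)
    (hℓv : ℓ v = m) (hℓw : ℓ w = m) : False := by
  -- the edge field
  set E := top ℓ m D with hE
  have hSB : ∀ a, SB E a := SB_of_mon fun u => SB_top (fD_mem_Fil hle) (gD_mem_Fil hle) u (h _)
  have hfE : fD E = gp ℓ m (fD D) := fD_mk _ _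
  have hgE : gD E = gp ℓ m (gD D) := gD_mk _ _
  have hsuppE : ∀ x, x ∈ supp E ↔ x ∈ supp D ∧ ℓ x = m := by
    intro x
    rw [mem_supp, mem_supp, hfE, hgE, gp_coeff, gp_coeff]
    by_cases hx : ℓ x = m
    · simp [hx]
    · simp [hx]
  have hvE : v ∈ supp E := (hsuppE v).2 ⟨hv, hℓv⟩
  have hwE : w ∈ supp E := (hsuppE w).2 ⟨hw, hℓw⟩
  -- primitive direction of the edge
  set ℓ₁ := ℓ (1, 0) with hℓ₁
  set ℓ₂ := ℓ (0, 1) with hℓ₂
  have hell : ∀ x, ℓ x = x.1 * ℓ₁ + x.2 * ℓ₂ := fun x => ell_eq ℓ x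
  have hg0 : 0 < Int.gcd ℓ₁ ℓ₂ := by
    rw [Nat.pos_iff_ne_zero]
    intro h0
    rw [Int.gcd_eq_zero_iff] at h0
    apply hm
    rw [← hℓv, hell, h0.1, h0.2]; ring
  obtain ⟨p, q, hpq, hp, hq⟩ := Int.exists_gcd_one hg0
  set g : ℤ := (Int.gcd ℓ₁ ℓ₂ : ℤ) with hg
  have hgpos : 0 < g := Int.natCast_pos.2 hg0
  obtain ⟨a, b, hab⟩ := Int.isCoprime_iff_gcd_eq_one.2 hpq
  set e : ℤ × ℤ := (-q, p) with he
  have hmell : ∀ x, ℓ x = g * (x.1 * p + x.2 * q) := by
    intro x; rw [hell, hp, hq]; ring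
  have hline : ∀ x y : ℤ × ℤ, ℓ x = m → ℓ y = m → ∃ j : ℤ, x = y + j • e := by
    intro x y hx hy
    have h1 : g * ((x.1 - y.1) * p + (x.2 - y.2) * q) = 0 := by
      have := hx.trans hy.symm
      rw [hmell, hmell] at this
      linear_combination this
    have h2 := (mul_eq_zero.1 h1).resolve_left hgpos.ne'
    refine ⟨a * (x.2 - y.2) - b * (x.1 - y.1), ?_⟩
    ext
    · simp only [he, Prod.fst_add, Prod.smul_fst, smul_eq_mul]
      linear_combination (-(x.1 - y.1)) * hab + a * h2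
    · simp only [he, Prod.snd_add, Prod.smul_snd, smul_eq_mul]
      linear_combination (-(x.2 - y.2)) * hab + b * h2
  have hee : 0 < e.1 * e.1 + e.2 * e.2 := by
    by_contra hle
    have h3 : e.1 = 0 := by nlinarith [mul_self_nonneg e.1, mul_self_nonneg e.2]
    have h4 : e.2 = 0 := by nlinarith [mul_self_nonneg e.1, mul_self_nonneg e.2]
    simp only [he] at h3 h4
    have h5 : q = 0 := by linarith
    rw [h4, h5] at hab
    simp at hab
  -- end points
  obtain ⟨v₁, hv₁, hmax⟩ := (supp E).exists_max_image (fun x => dotHom e x) ⟨v, hvE⟩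
  obtain ⟨v₀, hv₀, hmin⟩ := (supp E).exists_min_image (fun x => dotHom e x) ⟨v, hvE⟩
  have hdot : ∀ (y : ℤ × ℤ) (j : ℤ), dotHom e (y + j • e) = dotHom e y +
      j * (e.1 * e.1 + e.2 * e.2) := by
    intro y j
    rw [map_add, map_zsmul, smul_eq_mul, dotHom_apply e e]
  have hv₀m : ℓ v₀ = m := ((hsuppE v₀).1 hv₀).2
  have hv₁m : ℓ v₁ = m := ((hsuppE v₁).1 hv₁).2
  have hinj : ∀ x y : ℤ × ℤ, ℓ x = m → ℓ y = m → dotHom e x = dotHom e y → x = y := by
    intro x y hx hy hxy
    obtain ⟨j, hj⟩ := hline x y hx hy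
    rw [hj, hdot] at hxy
    have h1 : j * (e.1 * e.1 + e.2 * e.2) = 0 := by linarith
    have h2 := (mul_eq_zero.1 h1).resolve_right hee.ne'
    rw [hj, h2]; simp
  have hv₀₁ : v₀ ≠ v₁ := by
    intro heq
    apply hvw
    apply hinj v w hℓv hℓw
    have h1 := hmax v hvE
    have h2 := hmin v hvE
    have h3 := hmax w hwE
    have h4 := hmin w hwE
    rw [heq] at h2 h4
    linarith
  obtain ⟨k', hk'⟩ := hline v₁ v₀ hv₁m hv₀m
  have hk'pos : 0 < k' := by
    have h1 := hmin v₁ hv₁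
    rw [hk', hdot] at h1
    have h2 : 0 ≤ k' := by
      by_contra hneg
      have : k' * (e.1 * e.1 + e.2 * e.2) < 0 := mul_neg_of_neg_of_pos (not_le.1 hneg) hee
      linarith
    rcases h2.lt_or_eq with h3 | h3
    · exact h3
    · exfalso; apply hv₀₁; rw [hk', ← h3]; simp
  obtain ⟨k, hk⟩ := Int.eq_ofNat_of_zero_le hk'pos.le
  -- nonvanishing of the transversal coefficient at the end points
  have hdet : ∀ x : ℤ × ℤ, ℓ x = m → ((x.1 * p + x.2 * q : ℤ) : ℂ) ≠ 0 := by
    intro x hx h0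
    have h1 : (x.1 * p + x.2 * q : ℤ) = 0 := by exact_mod_cast h0
    apply hm
    rw [← hx, hmell, h1, mul_zero]
  have htrans : ∀ x ∈ supp E, x.1 * (fD E).coeff x + x.2 * (gD E).coeff x = 0 →
      (e.1 : ℂ) * (fD E).coeff x + e.2 * (gD E).coeff x ≠ 0 := by
    intro x hx hx0 hcon
    have hd := hdet x ((hsuppE x).1 hx).2
    simp only [he] at hcon
    push_cast at hcon hd
    have h1 : ((x.1 : ℂ) * p + x.2 * q) * (fD E).coeff x = 0 := by
      linear_combination p * hx0 - x.2 * hcon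
    have h2 : ((x.1 : ℂ) * p + x.2 * q) * (gD E).coeff x = 0 := by
      linear_combination q * hx0 + x.1 * hcon
    rcases mem_supp.1 hx with h3 | h3
    · exact h3 ((mul_eq_zero.1 h1).resolve_left hd)
    · exact h3 ((mul_eq_zero.1 h2).resolve_left hd)
  have hvert₁ : v₁.1 * (fD E).coeff v₁ + v₁.2 * (gD E).coeff v₁ = 0 :=
    top_vertex (dotHom e) v₁ (hSB _) (fun x hx => hmax x hx) (fun x hx hx' =>
      hinj x v₁ ((hsuppE x).1 hx).2 hv₁m hx')
  have hvert₀ : v₀.1 * (fD E).coeff v₀ + v₀.2 * (gD E).coeff v₀ = 0 := by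
    apply top_vertex (-dotHom e) v₀ (hSB _)
    · intro x hx
      have := hmin x hx
      simp only [AddMonoidHom.neg_apply]
      linarith
    · intro x hx hx'
      simp only [AddMonoidHom.neg_apply] at hx'
      exact hinj x v₀ ((hsuppE x).1 hx).2 hv₀m (by linarith)
  -- the polynomial
  set W : L := (e.1 : ℂ) • fD E + (e.2 : ℂ) • gD E with hW
  have hWc : ∀ x, W.coeff x = (e.1 : ℂ) * (fD E).coeff x + e.2 * (gD E).coeff x := by
    intro x
    rw [hW, AddMonoidAlgebra.coeff_add, Finsupp.add_apply, AddMonoidAlgebra.coeff_smul_apply,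
      AddMonoidAlgebra.coeff_smul_apply, smul_eq_mul, smul_eq_mul]
  have hW₀ : W.coeff v₀ ≠ 0 := by rw [hWc]; exact htrans v₀ hv₀ hvert₀
  have hW₁ : W.coeff v₁ ≠ 0 := by rw [hWc]; exact htrans v₁ hv₁ hvert₁
  have hWsupp : ∀ x, W.coeff x ≠ 0 → ∃ j ≤ k, x = v₀ + (j : ℤ) • e := by
    intro x hx
    have hxE : x ∈ supp E := by
      rw [mem_supp]
      by_contra hcon
      rw [not_or, not_not, not_not] at hcon
      apply hx
      rw [hWc, hcon.1, hcon.2]; simp
    obtain ⟨j', hj'⟩ := hline x v₀ ((hsuppE x).1 hxE).2 hv₀m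
    have h1 := hmin x hxE
    have h2 := hmax x hxE
    rw [hj', hdot] at h1
    rw [hj', hk', hdot, hdot] at h2
    have h3 : 0 ≤ j' := by
      by_contra hneg
      have : j' * (e.1 * e.1 + e.2 * e.2) < 0 := mul_neg_of_neg_of_pos (not_le.1 hneg) hee
      linarith
    have h4 : j' ≤ k' := by
      have : j' * (e.1 * e.1 + e.2 * e.2) ≤ k' * (e.1 * e.1 + e.2 * e.2) := by linarith
      exact le_of_mul_le_mul_right this hee
    obtain ⟨j, hj⟩ := Int.eq_ofNat_of_zero_le h3
    refine ⟨j, ?_, ?_⟩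
    · rw [hj, hk] at h4; exact_mod_cast h4
    · rw [hj', hj]
  set P : Polynomial ℂ := ∑ j ∈ Finset.range (k + 1),
    Polynomial.C (W.coeff (v₀ + (j : ℤ) • e)) * Polynomial.X ^ j with hP
  have hPcoeff : ∀ j ≤ k, P.coeff j = W.coeff (v₀ + (j : ℤ) • e) := by
    intro j hj
    rw [hP, Polynomial.finsetSum_coeff]
    simp only [Polynomial.coeff_C_mul, Polynomial.coeff_X_pow]
    rw [Finset.sum_eq_single j]
    · simp
    · intro i _ hij
      rw [if_neg (Ne.symm hij), mul_zero]
    · intro hj'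
      exact absurd (Finset.mem_range.2 (by omega)) hj'
  have hmonpow : ∀ j : ℕ, (mon e) ^ j = mon ((j : ℤ) • e) := by
    intro j
    induction j with
    | zero => simp [mon_zero]
    | succ j ih =>
      rw [pow_succ, ih, ← mon_add]
      congr 1
      push_cast
      rw [add_smul, one_smul]
  have hesmul : ∀ i j : ℤ, i • e = j • e → i = j := by
    intro i j hij
    have h1 : (i - j) • e = 0 := by rw [sub_smul, hij, sub_self]
    have h2 : (i - j) * e.1 = 0 := congrArg Prod.fst h1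
    have h3 : (i - j) * e.2 = 0 := congrArg Prod.snd h1
    by_contra hne
    have h4 : i - j ≠ 0 := sub_ne_zero.2 hne
    have h5 := (mul_eq_zero.1 h2).resolve_left h4
    have h6 := (mul_eq_zero.1 h3).resolve_left h4
    rw [h5, h6] at hee
    simp at hee
  have hWP : W = mon v₀ * Polynomial.aeval (mon e) P := by
    ext x
    rw [hP, map_sum, Finset.mul_sum]
    have h1 : ∀ j : ℕ, mon v₀ * (Polynomial.aeval (mon e))
        (Polynomial.C (W.coeff (v₀ + (j : ℤ) • e)) * Polynomial.X ^ j) =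
        W.coeff (v₀ + (j : ℤ) • e) • mon (v₀ + (j : ℤ) • e) := by
      intro j
      rw [map_mul, Polynomial.aeval_C, map_pow, Polynomial.aeval_X, hmonpow, mul_left_comm,
        ← Algebra.smul_def, ← mon_add]
    simp_rw [h1]
    rw [AddMonoidAlgebra.coeff_sum, Finsupp.finsetSum_apply]
    simp only [AddMonoidAlgebra.coeff_smul_apply, mon_coeff, smul_eq_mul]
    by_cases hx : W.coeff x = 0
    · rw [hx]
      symm
      apply Finset.sum_eq_zero
      intro j _
      split_ifs with h2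
      · rw [h2, hx, zero_mul]
      · rw [mul_zero]
    · obtain ⟨j, hj, hxj⟩ := hWsupp x hx
      rw [Finset.sum_eq_single j]
      · rw [if_pos hxj.symm, ← hxj, mul_one]
      · intro i _ hij
        rw [if_neg, mul_zero]
        intro h2
        apply hij
        rw [hxj] at h2
        have := hesmul _ _ (add_left_cancel h2)
        exact_mod_cast this
      · intro hj'
        exact absurd (Finset.mem_range.2 (by omega)) hj'
  have hPk : P.coeff k ≠ 0 := by
    rw [hPcoeff k le_rfl]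
    have : v₁ = v₀ + (k : ℤ) • e := by rw [hk', hk]
    rw [← this]; exact hW₁
  have hP0 : P.coeff 0 ≠ 0 := by
    rw [hPcoeff 0 (Nat.zero_le _)]
    simpa using hW₀
  have hkpos : 0 < k := by
    rw [hk] at hk'pos
    exact_mod_cast hk'pos
  have hdeg : P.degree ≠ 0 := by
    intro h0
    have h1 : (k : WithBot ℕ) ≤ P.degree := Polynomial.le_degree_of_ne_zero hPk
    rw [h0] at h1
    have : k ≤ 0 := by exact_mod_cast h1
    omega
  obtain ⟨α, hα⟩ := IsAlgClosed.exists_root P hdeg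
  have hα0 : α ≠ 0 := by
    intro h0
    rw [h0, Polynomial.IsRoot, ← Polynomial.coeff_zero_eq_eval_zero] at hα
    exact hP0 hα
  obtain ⟨Q, hQ⟩ := Polynomial.dvd_iff_isRoot.2 hα
  have hfac : E (mon e) = (mon e - algebraMap ℂ L α) *
      (mon e * (mon v₀ * Polynomial.aeval (mon e) Q)) := by
    rw [D_mon, ← hW, hWP, hQ, map_mul, map_sub, Polynomial.aeval_X, Polynomial.aeval_C]
    ring
  have hzero := picard_obstruction hSB e α hα0 _ hfac
  rw [D_mon, ← hW] at hzero
  have hW0 : W = 0 := by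
    have h1 : mon (-e) * (mon e * W) = 0 := by rw [hzero, mul_zero]
    rw [← mul_assoc, mul_comm (mon (-e)), mon_mul_neg, one_mul] at h1
    exact h1
  rw [hW0] at hW₀
  simp at hW₀

/-- Derivations of the Laurent polynomials satisfying the Cauchy estimates are divergence free. -/
theorem dvg_eq_zero {D : Derivation ℂ L L} (h : ∀ a, SB D a) : dvg D = 0 := by
  have hline : ∀ s ∈ supp D, ∀ t ∈ supp D, s.1 * t.2 - s.2 * t.1 = 0 := by
    intro s hs t ht
    by_contra hst
    obtain ⟨ℓ, m, hm, hle, v, hv, w, hw, hvw, hℓv, hℓw⟩ := exists_edge (supp D) s t hs ht hst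
    exact no_edge h ℓ m hm hle v w hv hw hvw hℓv hℓw
  ext x
  rw [dvg, AddMonoidAlgebra.coeff_add, Finsupp.add_apply, θ₁, θ₂, euler_coeff, euler_coeff,
    c1_apply, c2_apply]
  simpa using line_case h hline x

/-- **Complete algebraic vector fields on the two dimensional torus are divergence free.** -/
theorem complete_dvg (D : Derivation ℂ L L) (hD : IsComplete D) : dvg D = 0 :=
  dvg_eq_zero (complete_SB D hD)

theorem not_adp_L : ¬ HasAlgebraicDensityProperty L := not_adp_of complete_dvg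

end Pool.Agent.Lib.MP_acc6f5_ag
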