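import Pool.Agent.Lib.MP_acc6f5_ag.Model

/-!
# Derivations of the ring of Laurent polynomials
-/

open scoped Topology

namespace Pool.Agent.Lib.MP_acc6f5_ag

/-- The linear map multiplying the monomial `m` by `c m`. -/
noncomputable def scaleLin (c : ℤ × ℤ → ℂ) : L →ₗ[ℂ] L where
  toFun f := AddMonoidAlgebra.ofCoeff
    (Finsupp.onFinset f.coeff.support (fun m => c m * f.coeff m) (by
      intro m hm
      simp only [Finsupp.mem_support_iff]
      intro h
      exact hm (by simp [h])))
  map_add' f g := by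
    ext m
    simp [mul_add]
  map_smul' r f := by
    ext m
    simp
    ring

lemma scaleLin_coeff (c : ℤ × ℤ → ℂ) (f : L) (m : ℤ × ℤ) :
    (scaleLin c f).coeff m = c m * f.coeff m := rfl

lemma mon_coeff (m n : ℤ × ℤ) : (mon m).coeff n = if m = n then 1 else 0 := by
  simp [mon, Finsupp.single_apply]

lemma scaleLin_mon (c : ℤ × ℤ → ℂ) (m : ℤ × ℤ) : scaleLin c (mon m) = c m • mon m := by
  ext n
  simp only [scaleLin_coeff, AddMonoidAlgebra.coeff_smul_apply, mon_coeff, smul_eq_mul]
  split_ifs with h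
  · rw [h]
  · simp

/-- The derivation multiplying the monomial `m` by `c m`, for `c` additive. -/
noncomputable def euler (c : ℤ × ℤ →+ ℂ) : Derivation ℂ L L :=
  Derivation.mk' (scaleLin c) (by
    intro f g
    refine L_induction (P := fun f => scaleLin c (f * g) = f • scaleLin c g + g • scaleLin c f)
      f ?_ ?_ ?_
    · simp
    · intro f₁ f₂ h₁ h₂
      simp only [add_mul, map_add, h₁, h₂, smul_eq_mul, mul_add]
      abel
    · intro r m
      refine L_induction (P := fun g => scaleLin c ((r • mon m) * g) =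
        (r • mon m) • scaleLin c g + g • scaleLin c (r • mon m)) g ?_ ?_ ?_
      · simp
      · intro g₁ g₂ h₁ h₂
        simp only [add_mul, map_add, h₁, h₂, smul_eq_mul, mul_add]
        abel
      · intro s n
        simp only [smul_eq_mul, map_smul, scaleLin_mon, smul_mul_smul_comm, ← mon_add, map_add]
        rw [mul_smul_comm, mul_smul_comm, ← mon_add, ← mon_add, add_comm n m, mul_comm s r,
          add_smul, smul_add, add_comm])

lemma euler_apply (c : ℤ × ℤ →+ ℂ) (f : L) : euler c f = scaleLin c f := rfl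

lemma euler_coeff (c : ℤ × ℤ →+ ℂ) (f : L) (m : ℤ × ℤ) :
    (euler c f).coeff m = c m * f.coeff m := rfl

lemma euler_mon (c : ℤ × ℤ →+ ℂ) (m : ℤ × ℤ) : euler c (mon m) = c m • mon m :=
  scaleLin_mon c m

/-- First exponent. -/
noncomputable def c1 : ℤ × ℤ →+ ℂ := (Int.castAddHom ℂ).comp (AddMonoidHom.fst ℤ ℤ)

/-- Second exponent. -/
noncomputable def c2 : ℤ × ℤ →+ ℂ := (Int.castAddHom ℂ).comp (AddMonoidHom.snd ℤ ℤ)

@[simp] lemma c1_apply (m : ℤ × ℤ) : c1 m = m.1 := rfl
@[simp] lemma c2_apply (m : ℤ × ℤ) : c2 m = m.2 := rfl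

/-- `z ∂/∂z` -/
noncomputable def θ₁ : Derivation ℂ L L := euler c1
/-- `w ∂/∂w` -/
noncomputable def θ₂ : Derivation ℂ L L := euler c2

/-- logarithmic derivative of monomials -/
noncomputable def logD (D : Derivation ℂ L L) : ℤ × ℤ →+ L where
  toFun m := mon (-m) * D (mon m)
  map_zero' := by simp [mon_zero]
  map_add' m n := by
    simp only [mon_add, neg_add, Derivation.leibniz, smul_eq_mul]
    linear_combination (mon (-n) * D (mon n)) * mon_mul_neg m +
      (mon (-m) * D (mon m)) * mon_mul_neg n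

/-- The `θ₁`-coefficient of a derivation. -/
noncomputable def fD (D : Derivation ℂ L L) : L := logD D (1, 0)
/-- The `θ₂`-coefficient of a derivation. -/
noncomputable def gD (D : Derivation ℂ L L) : L := logD D (0, 1)

lemma logD_eq (D : Derivation ℂ L L) (m : ℤ × ℤ) :
    logD D m = (m.1 : ℂ) • fD D + (m.2 : ℂ) • gD D := by
  have : m = m.1 • ((1 : ℤ), (0 : ℤ)) + m.2 • ((0 : ℤ), (1 : ℤ)) := by simp
  conv_lhs => rw [this]
  rw [map_add, map_zsmul, map_zsmul, fD, gD, Int.cast_smul_eq_zsmul, Int.cast_smul_eq_zsmul]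

lemma D_mon (D : Derivation ℂ L L) (m : ℤ × ℤ) :
    D (mon m) = mon m * ((m.1 : ℂ) • fD D + (m.2 : ℂ) • gD D) := by
  rw [← logD_eq]
  show _ = mon m * (mon (-m) * D (mon m))
  rw [← mul_assoc, mon_mul_neg, one_mul]

lemma derivation_eq (D : Derivation ℂ L L) : D = fD D • θ₁ + gD D • θ₂ := by
  ext f : 1
  refine L_induction (P := fun f => D f = (fD D • θ₁ + gD D • θ₂) f) f (by simp) ?_ ?_
  · intro f g hf hg
    rw [map_add, map_add, hf, hg]
  · intro c m
    rw [Derivation.map_smul, Derivation.map_smul]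
    congr 1
    rw [D_mon]
    simp only [Derivation.add_apply, Derivation.smul_apply, θ₁, θ₂, euler_mon, smul_eq_mul,
      c1_apply, c2_apply, mul_smul_comm, mul_comm (mon m), add_mul, smul_mul_assoc]

lemma derivation_ext {D E : Derivation ℂ L L} (h1 : fD D = fD E) (h2 : gD D = gD E) : D = E := by
  rw [derivation_eq D, derivation_eq E, h1, h2]

@[simp] lemma fD_mk (f g : L) : fD (f • θ₁ + g • θ₂) = f := by
  show mon (-(1, 0)) * ((f • θ₁ + g • θ₂) (mon (1, 0))) = f
  simp only [Derivation.add_apply, Derivation.smul_apply, θ₁, θ₂, euler_mon, smul_eq_mul,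
      c1_apply, c2_apply, Int.cast_one, Int.cast_zero, one_smul, zero_smul, mul_zero, add_zero]
  linear_combination f * mon_mul_neg (1, 0)

@[simp] lemma gD_mk (f g : L) : gD (f • θ₁ + g • θ₂) = g := by
  show mon (-(0, 1)) * ((f • θ₁ + g • θ₂) (mon (0, 1))) = g
  simp only [Derivation.add_apply, Derivation.smul_apply, θ₁, θ₂, euler_mon, smul_eq_mul,
      c1_apply, c2_apply, Int.cast_one, Int.cast_zero, one_smul, zero_smul, mul_zero, zero_add]
  linear_combination g * mon_mul_neg (0, 1)

end Pool.Agent.Lib.MP_acc6f5_ag
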