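import Pool.Agent.Lib.MP_acc6f5_ag.Defs

/-!
# The coordinate ring of the two dimensional torus
-/

open scoped Topology

namespace Pool.Agent.Lib.MP_acc6f5_ag

/-- The ring of Laurent polynomials in two variables. -/
abbrev L := AddMonoidAlgebra ℂ (ℤ × ℤ)

/-- The monomial with exponent `m`. -/
noncomputable def mon (m : ℤ × ℤ) : L := AddMonoidAlgebra.single m 1

lemma mon_zero : mon 0 = 1 := rfl

lemma mon_add (m n : ℤ × ℤ) : mon (m + n) = mon m * mon n := by
  simp [mon, AddMonoidAlgebra.single_mul_single]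

lemma mon_mul_neg (m : ℤ × ℤ) : mon m * mon (-m) = 1 := by
  rw [← mon_add, add_neg_cancel, mon_zero]

/-- The monomial as a unit. -/
noncomputable def monU (m : ℤ × ℤ) : Lˣ where
  val := mon m
  inv := mon (-m)
  val_inv := mon_mul_neg m
  inv_val := by rw [mul_comm]; exact mon_mul_neg m

@[simp] lemma monU_val (m : ℤ × ℤ) : (monU m : L) = mon m := rfl

lemma monU_add (m n : ℤ × ℤ) : monU (m + n) = monU m * monU n := by
  ext1; simp [mon_add]

/-- The monomials as a homomorphism to the units. -/
noncomputable def monHom : Multiplicative (ℤ × ℤ) →* Lˣ where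
  toFun m := monU m.toAdd
  map_one' := by ext1; simp [mon_zero]
  map_mul' m n := by simp [monU_add]

lemma monU_eq (m : ℤ × ℤ) : monU m = monU (1, 0) ^ m.1 * monU (0, 1) ^ m.2 := by
  have h1 : monU (1, 0) ^ m.1 = monU (m.1, 0) := by
    have := map_zpow monHom (Multiplicative.ofAdd ((1 : ℤ), (0 : ℤ))) m.1
    simp only [monHom, MonoidHom.coe_mk, OneHom.coe_mk, toAdd_zpow, toAdd_ofAdd] at this
    rw [← this]
    simp
  have h2 : monU (0, 1) ^ m.2 = monU (0, m.2) := by
    have := map_zpow monHom (Multiplicative.ofAdd ((0 : ℤ), (1 : ℤ))) m.2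
    simp only [monHom, MonoidHom.coe_mk, OneHom.coe_mk, toAdd_zpow, toAdd_ofAdd] at this
    rw [← this]
    simp
  rw [h1, h2, ← monU_add]
  simp

lemma L_induction {P : L → Prop} (f : L) (h0 : P 0) (hadd : ∀ f g, P f → P g → P (f + g))
    (hmon : ∀ (c : ℂ) (m : ℤ × ℤ), P (c • mon m)) : P f := by
  induction f using AddMonoidAlgebra.induction_linear with
  | zero => exact h0
  | add f g hf hg => exact hadd f g hf hg
  | single m c =>
    have : (AddMonoidAlgebra.single m c : L) = c • mon m := by
      simp [mon]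
    rw [this]; exact hmon c m

section lift

variable {B : Type*} [CommRing B] [Algebra ℂ B]

/-- The homomorphism from the Laurent polynomials given by a pair of units. -/
noncomputable def liftU (u v : Bˣ) : L →ₐ[ℂ] B :=
  AddMonoidAlgebra.lift ℂ B (ℤ × ℤ)
    { toFun := fun m => ((u ^ m.toAdd.1 * v ^ m.toAdd.2 : Bˣ) : B)
      map_one' := by simp
      map_mul' := by
        intro m n
        rw [← Units.val_mul]
        congr 1
        simp only [toAdd_mul, Prod.fst_add, Prod.snd_add, zpow_add]
        exact mul_mul_mul_comm _ _ _ _ }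

lemma liftU_mon (u v : Bˣ) (m : ℤ × ℤ) :
    liftU u v (mon m) = ((u ^ m.1 * v ^ m.2 : Bˣ) : B) := by
  simp only [liftU, mon, AddMonoidAlgebra.lift_single, one_smul]
  rfl

lemma algHom_mon (φ : L →ₐ[ℂ] B) (m : ℤ × ℤ) : φ (mon m) =
    (((Units.map (φ : L →* B) (monU (1, 0))) ^ m.1 *
      (Units.map (φ : L →* B) (monU (0, 1))) ^ m.2 : Bˣ) : B) := by
  rw [← map_zpow, ← map_zpow, ← map_mul, ← monU_eq]
  rfl

lemma algHom_eq (φ ψ : L →ₐ[ℂ] B) (h1 : φ (mon (1, 0)) = ψ (mon (1, 0)))
    (h2 : φ (mon (0, 1)) = ψ (mon (0, 1))) : φ = ψ := by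
  have e1 : Units.map (φ : L →* B) (monU (1, 0)) = Units.map (ψ : L →* B) (monU (1, 0)) := by
    ext1; exact h1
  have e2 : Units.map (φ : L →* B) (monU (0, 1)) = Units.map (ψ : L →* B) (monU (0, 1)) := by
    ext1; exact h2
  refine AlgHom.ext fun f => ?_
  refine L_induction (P := fun f => φ f = ψ f) f (by simp) (fun f g hf hg => by
    simp only [map_add, hf, hg]) fun c m => ?_
  rw [map_smul, map_smul, algHom_mon, algHom_mon, e1, e2]

lemma algHom_eq_liftU (φ : L →ₐ[ℂ] B) : φ = liftU (Units.map (φ : L →* B) (monU (1, 0)))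
    (Units.map (φ : L →* B) (monU (0, 1))) := by
  apply algHom_eq
  · rw [liftU_mon]; simp
  · rw [liftU_mon]; simp

end lift

/-- The torus is an affine-algebraic manifold. -/
theorem isAffineAlgebraicManifold_L : IsAffineAlgebraicManifold L where
  irreducible := inferInstance
  finiteType := inferInstance
  smooth := by
    have hfp : Algebra.FinitePresentation ℂ L :=
      Algebra.FinitePresentation.of_finiteType.1 inferInstance
    have hfs : Algebra.FormallySmooth ℂ L := by
      apply Algebra.FormallySmooth.of_comp_surjective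
      intro B _ _ I hI φ
      have hnil : IsNilpotent I := ⟨2, by rw [hI]; rfl⟩
      have hlift : ∀ w : (B ⧸ I)ˣ, ∃ u : Bˣ, Ideal.Quotient.mk I (u : B) = w := by
        intro w
        obtain ⟨b, hb⟩ := Ideal.Quotient.mk_surjective (w : B ⧸ I)
        have hu : IsUnit b := by
          obtain ⟨c, hc⟩ := Ideal.Quotient.mk_surjective ((w⁻¹ : (B ⧸ I)ˣ) : B ⧸ I)
          have hbc : Ideal.Quotient.mk I (b * c - 1) = 0 := by
            rw [map_sub, map_mul, hb, hc, map_one, Units.mul_inv, sub_self]
          have hmem : b * c - 1 ∈ I := Ideal.Quotient.eq_zero_iff_mem.1 hbc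
          have hsq : (b * c - 1) ^ 2 = 0 := by
            have : (b * c - 1) ^ 2 ∈ I ^ 2 := Ideal.pow_mem_pow hmem 2
            rw [hI] at this
            exact this
          have h1 : b * (c * (2 - b * c)) = 1 := by
            linear_combination -hsq
          exact IsUnit.of_mul_eq_one _ h1
        obtain ⟨u, rfl⟩ := hu
        exact ⟨u, hb⟩
      obtain ⟨u, hu⟩ := hlift (Units.map (φ : L →* B ⧸ I) (monU (1, 0)))
      obtain ⟨v, hv⟩ := hlift (Units.map (φ : L →* B ⧸ I) (monU (0, 1)))
      refine ⟨liftU u v, ?_⟩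
      apply algHom_eq
      · show Ideal.Quotient.mk I (liftU u v (mon (1, 0))) = _
        rw [liftU_mon]
        simpa using hu
      · show Ideal.Quotient.mk I (liftU u v (mon (0, 1))) = _
        rw [liftU_mon]
        simpa using hv
    exact ⟨hfs, hfp⟩

end Pool.Agent.Lib.MP_acc6f5_ag
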