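import Pool.Agent.Lib.MP_acc6f5_ag.Interp
import Pool.Agent.Lib.MP_acc6f5_ag.Model

/-!
# A tame set in the torus
-/

open scoped Topology
open Filter

namespace Pool.Agent.Lib.MP_acc6f5_ag

/-- the first coordinate as a unit -/
noncomputable def ux (x : Points L) : ℂˣ := Units.map (ev x : L →* ℂ) (monU (1, 0))
/-- the second coordinate as a unit -/
noncomputable def uy (x : Points L) : ℂˣ := Units.map (ev x : L →* ℂ) (monU (0, 1))
/-- The point with given coordinates -/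
noncomputable def pt (u v : ℂˣ) : Points L := liftU u v

lemma ux_val (x : Points L) : (ux x : ℂ) = ev x (mon (1, 0)) := rfl
lemma uy_val (x : Points L) : (uy x : ℂ) = ev x (mon (0, 1)) := rfl

lemma ev_pt (u v : ℂˣ) : ev (pt u v) = liftU u v := rfl

@[simp] lemma ux_pt (u v : ℂˣ) : ux (pt u v) = u := by
  ext1; rw [ux_val, ev_pt, liftU_mon]; simp
@[simp] lemma uy_pt (u v : ℂˣ) : uy (pt u v) = v := by
  ext1; rw [uy_val, ev_pt, liftU_mon]; simp

lemma pt_eta (x : Points L) : pt (ux x) (uy x) = x := (algHom_eq_liftU (ev x)).symm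

lemma pt_ext {x y : Points L} (h1 : ux x = ux y) (h2 : uy x = uy y) : x = y := by
  rw [← pt_eta x, ← pt_eta y, h1, h2]

/-- analytic at all points with nonzero coordinates -/
def AnT (H : ℂ × ℂ → ℂ) : Prop := ∀ p : ℂ × ℂ, p.1 ≠ 0 → p.2 ≠ 0 → AnalyticAt ℂ H p

/-- Regular functions are analytic functions of the coordinates. -/
lemma regular_AnT (a : L) : ∃ H : ℂ × ℂ → ℂ, AnT H ∧ ∀ x, ev x a = H (ux x, uy x) := by
  refine L_induction (P := fun a => ∃ H : ℂ × ℂ → ℂ, AnT H ∧ ∀ x, ev x a = H (ux x, uy x)) a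
    ⟨fun _ => 0, fun p _ _ => analyticAt_const, fun x => by simp⟩ ?_ ?_
  · rintro f g ⟨H, hH, hH'⟩ ⟨K, hK, hK'⟩
    exact ⟨fun p => H p + K p, fun p h1 h2 => (hH p h1 h2).add (hK p h1 h2), fun x => by
      rw [map_add, hH', hK']⟩
  · intro c m
    refine ⟨fun p => c * (p.1 ^ m.1 * p.2 ^ m.2), fun p h1 h2 => ?_, fun x => ?_⟩
    · exact analyticAt_const.mul ((analyticAt_fst.zpow h1).mul (analyticAt_snd.zpow h2))
    · rw [map_smul, algHom_mon]
      simp [ux, uy]

/-- Maps of the torus given by analytic functions of the coordinates. -/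
def HolT (F : Points L → Points L) : Prop := ∃ G₁ G₂ : ℂ × ℂ → ℂ, AnT G₁ ∧ AnT G₂ ∧
  ∀ x, (ux (F x) : ℂ) = G₁ (ux x, uy x) ∧ (uy (F x) : ℂ) = G₂ (ux x, uy x)

lemma HolT.comp {F F' : Points L → Points L} (h' : HolT F') (h : HolT F) : HolT (F' ∘ F) := by
  obtain ⟨G₁, G₂, h1, h2, h3⟩ := h
  obtain ⟨K₁, K₂, k1, k2, k3⟩ := h'
  have hne : ∀ p : ℂ × ℂ, p.1 ≠ 0 → p.2 ≠ 0 → G₁ p ≠ 0 ∧ G₂ p ≠ 0 := by
    intro p hp1 hp2
    have := h3 (pt (Units.mk0 p.1 hp1) (Units.mk0 p.2 hp2))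
    simp only [ux_pt, uy_pt, Units.val_mk0] at this
    rw [← this.1, ← this.2]
    exact ⟨Units.ne_zero _, Units.ne_zero _⟩
  refine ⟨fun p => K₁ (G₁ p, G₂ p), fun p => K₂ (G₁ p, G₂ p), ?_, ?_, ?_⟩
  · intro p hp1 hp2
    exact (k1 (G₁ p, G₂ p) (hne p hp1 hp2).1 (hne p hp1 hp2).2).comp
      (f := fun p => (G₁ p, G₂ p)) ((h1 p hp1 hp2).prod (h2 p hp1 hp2))
  · intro p hp1 hp2
    exact (k2 (G₁ p, G₂ p) (hne p hp1 hp2).1 (hne p hp1 hp2).2).comp
      (f := fun p => (G₁ p, G₂ p)) ((h1 p hp1 hp2).prod (h2 p hp1 hp2))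
  · intro x
    have h4 := k3 (F x)
    rw [(h3 x).1, (h3 x).2] at h4
    exact h4

lemma HolT.isHolomorphicMap {F : Points L → Points L} (h : HolT F) : IsHolomorphicMap F := by
  obtain ⟨G₁, G₂, h1, h2, h3⟩ := h
  have hne : ∀ p : ℂ × ℂ, p.1 ≠ 0 → p.2 ≠ 0 → G₁ p ≠ 0 ∧ G₂ p ≠ 0 := by
    intro p hp1 hp2
    have := h3 (pt (Units.mk0 p.1 hp1) (Units.mk0 p.2 hp2))
    simp only [ux_pt, uy_pt, Units.val_mk0] at this
    rw [← this.1, ← this.2]
    exact ⟨Units.ne_zero _, Units.ne_zero _⟩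
  intro a x
  obtain ⟨H, hH, hH'⟩ := regular_AnT a
  refine ⟨2, ![mon (1, 0), mon (0, 1)],
    fun v => H (G₁ (v 0, v 1), G₂ (v 0, v 1)), ?_, Eventually.of_forall fun y => ?_⟩
  · have e1 : (ux x : ℂ) ≠ 0 := (ux x).ne_zero
    have e2 : (uy x : ℂ) ≠ 0 := (uy x).ne_zero
    set v₀ : Fin 2 → ℂ := fun i => ev x ((![mon (1, 0), mon (0, 1)] : Fin 2 → L) i) with hv₀
    have hv0 : v₀ 0 = ux x := rfl
    have hv1 : v₀ 1 = uy x := rfl
    have hproj : AnalyticAt ℂ (fun v : Fin 2 → ℂ => (v 0, v 1)) v₀ :=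
      ((ContinuousLinearMap.proj (R := ℂ) (φ := fun _ : Fin 2 => ℂ) 0).analyticAt v₀).prod
        ((ContinuousLinearMap.proj (R := ℂ) (φ := fun _ : Fin 2 => ℂ) 1).analyticAt v₀)
    have hp1 : ((v₀ 0, v₀ 1) : ℂ × ℂ).1 ≠ 0 := by rw [hv0]; exact e1
    have hp2 : ((v₀ 0, v₀ 1) : ℂ × ℂ).2 ≠ 0 := by rw [hv1]; exact e2
    have hG : AnalyticAt ℂ (fun p : ℂ × ℂ => (G₁ p, G₂ p)) (v₀ 0, v₀ 1) :=
      (h1 _ hp1 hp2).prod (h2 _ hp1 hp2)
    have hHG : AnalyticAt ℂ (fun p : ℂ × ℂ => H (G₁ p, G₂ p)) (v₀ 0, v₀ 1) :=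
      (hH (G₁ (v₀ 0, v₀ 1), G₂ (v₀ 0, v₀ 1)) (hne _ hp1 hp2).1 (hne _ hp1 hp2).2).comp
        (f := fun p => (G₁ p, G₂ p)) hG
    exact hHG.comp (f := fun v : Fin 2 → ℂ => (v 0, v 1)) hproj
  · show ev (F y) a = H (G₁ (ux y, uy y), G₂ (ux y, uy y))
    rw [hH', (h3 y).1, (h3 y).2]

/-- The exponential as a unit. -/
noncomputable def expU (c : ℂ) : ℂˣ := Units.mk0 (Complex.exp c) (Complex.exp_ne_zero c)

lemma expU_mul_neg (c : ℂ) : expU c * expU (-c) = 1 := by
  ext1
  simp [expU, ← Complex.exp_add]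

/-- `(z, w) ↦ (z, w e^{φ z})` -/
noncomputable def shear₂ (φ : ℂ → ℂ) : Points L ≃ Points L where
  toFun x := pt (ux x) (uy x * expU (φ (ux x)))
  invFun x := pt (ux x) (uy x * expU (-φ (ux x)))
  left_inv x := by
    apply pt_ext
    · simp
    · simp [mul_assoc, expU_mul_neg]
  right_inv x := by
    apply pt_ext
    · simp
    · simp only [ux_pt, uy_pt, mul_assoc]
      rw [mul_comm (expU _), expU_mul_neg, mul_one]

/-- `(z, w) ↦ (z e^{ψ w}, w)` -/
noncomputable def shear₁ (ψ : ℂ → ℂ) : Points L ≃ Points L where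
  toFun x := pt (ux x * expU (ψ (uy x))) (uy x)
  invFun x := pt (ux x * expU (-ψ (uy x))) (uy x)
  left_inv x := by
    apply pt_ext
    · simp [mul_assoc, expU_mul_neg]
    · simp
  right_inv x := by
    apply pt_ext
    · simp only [ux_pt, uy_pt, mul_assoc]
      rw [mul_comm (expU _), expU_mul_neg, mul_one]
    · simp

/-- `(z, w) ↦ (z, w / z)` -/
noncomputable def quo : Points L ≃ Points L where
  toFun x := pt (ux x) (uy x * (ux x)⁻¹)
  invFun x := pt (ux x) (uy x * ux x)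
  left_inv x := by
    apply pt_ext
    · simp
    · simp
  right_inv x := by
    apply pt_ext
    · simp
    · simp

lemma shear₂_holT (φ : ℂ → ℂ) (hφ : Differentiable ℂ φ) :
    HolT (shear₂ φ) ∧ HolT (shear₂ φ).symm := by
  have hp : ∀ p : ℂ × ℂ, AnalyticAt ℂ (fun p : ℂ × ℂ => φ p.1) p := fun p =>
    (hφ.analyticAt p.1).comp (f := Prod.fst) analyticAt_fst
  refine ⟨⟨fun p => p.1, fun p => p.2 * Complex.exp (φ p.1), ?_, ?_, ?_⟩,
    ⟨fun p => p.1, fun p => p.2 * Complex.exp (-φ p.1), ?_, ?_, ?_⟩⟩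
  · intro p _ _; exact analyticAt_fst
  · intro p _ _
    exact analyticAt_snd.mul ((hp p).cexp)
  · intro x
    simp [shear₂, expU]
  · intro p _ _; exact analyticAt_fst
  · intro p _ _
    exact analyticAt_snd.mul ((hp p).neg.cexp)
  · intro x
    simp [shear₂, expU]

lemma shear₁_holT (φ : ℂ → ℂ) (hφ : Differentiable ℂ φ) :
    HolT (shear₁ φ) ∧ HolT (shear₁ φ).symm := by
  have hp : ∀ p : ℂ × ℂ, AnalyticAt ℂ (fun p : ℂ × ℂ => φ p.2) p := fun p =>
    (hφ.analyticAt p.2).comp (f := Prod.snd) analyticAt_snd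
  refine ⟨⟨fun p => p.1 * Complex.exp (φ p.2), fun p => p.2, ?_, ?_, ?_⟩,
    ⟨fun p => p.1 * Complex.exp (-φ p.2), fun p => p.2, ?_, ?_, ?_⟩⟩
  · intro p _ _
    exact analyticAt_fst.mul ((hp p).cexp)
  · intro p _ _; exact analyticAt_snd
  · intro x
    simp [shear₁, expU]
  · intro p _ _
    exact analyticAt_fst.mul ((hp p).neg.cexp)
  · intro p _ _; exact analyticAt_snd
  · intro x
    simp [shear₁, expU]

lemma quo_holT : HolT quo ∧ HolT quo.symm := by
  refine ⟨⟨fun p => p.1, fun p => p.2 * p.1⁻¹, ?_, ?_, ?_⟩,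
    ⟨fun p => p.1, fun p => p.2 * p.1, ?_, ?_, ?_⟩⟩
  · intro p _ _; exact analyticAt_fst
  · intro p h1 _
    exact analyticAt_snd.mul (analyticAt_fst.inv h1)
  · intro x
    simp [quo]
  · intro p _ _; exact analyticAt_fst
  · intro p _ _
    exact analyticAt_snd.mul analyticAt_fst
  · intro x
    simp [quo]

/-- The numbers `n + 1` as units. -/
noncomputable def au (n : ℕ) : ℂˣ := Units.mk0 ((n : ℂ) + 1) (by exact_mod_cast Nat.succ_ne_zero n)

/-- The points `(n + 1, 1)`. -/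
noncomputable def sp (n : ℕ) : Points L := pt (au n) 1

lemma au_injective : Function.Injective au := by
  intro m n h
  have : ((m : ℂ) + 1) = (n : ℂ) + 1 := by
    have := congrArg (Units.val) h
    simpa [au] using this
  have h2 := add_right_cancel this
  exact_mod_cast h2

lemma sp_injective : Function.Injective sp := by
  intro m n h
  apply au_injective
  rw [← ux_pt (au m) 1, ← ux_pt (au n) 1]
  exact congrArg ux h

lemma continuous_ev (a : L) : Continuous fun x : Points L => ev x a := by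
  have h1 : Continuous (fun x : Points L => fun a : L => ev x a) := continuous_induced_dom
  exact (continuous_apply a).comp h1

lemma log_surj (c : ℂˣ) : Complex.exp (Complex.log c) = c := Complex.exp_log c.ne_zero

theorem isTameSet_sp : IsTameSet (Set.range sp) := by
  have hdist : ∀ m n : ℕ, m ≠ n → 1 ≤ dist (au m : ℂ) (au n : ℂ) := by
    intro m n hmn
    have h1 : (au m : ℂ) - au n = (((m : ℤ) - (n : ℤ) : ℤ) : ℂ) := by
      simp [au]
    rw [dist_eq_norm, h1, Complex.norm_intCast]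
    have h2 : (m : ℤ) - n ≠ 0 := by
      intro h; apply hmn; omega
    have h3 := Int.one_le_abs h2
    exact_mod_cast h3
  constructor
  · -- closed
    have h1 : IsClosed (Set.range fun n => (au n : ℂ)) := by
      apply Metric.isClosed_of_pairwise_le_dist (ε := 1) one_pos
      rintro _ ⟨m, rfl⟩ _ ⟨n, rfl⟩ hne
      exact hdist m n fun h => hne (by rw [h])
    have h2 : Set.range sp = (fun x => ev x (mon (1, 0))) ⁻¹' (Set.range fun n => (au n : ℂ)) ∩
        (fun x => ev x (mon (0, 1))) ⁻¹' {1} := by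
      ext x
      constructor
      · rintro ⟨n, rfl⟩
        refine ⟨⟨n, ?_⟩, ?_⟩
        · show (au n : ℂ) = ux (sp n)
          rw [sp, ux_pt]
        · show (uy (sp n) : ℂ) = 1
          rw [sp, uy_pt, Units.val_one]
      · rintro ⟨⟨n, hn⟩, hy⟩
        refine ⟨n, pt_ext ?_ ?_⟩
        · rw [sp, ux_pt]; ext1; exact hn
        · rw [sp, uy_pt]; ext1; exact (Eq.symm hy)
    rw [h2]
    exact (h1.preimage (continuous_ev _)).inter (isClosed_singleton.preimage (continuous_ev _))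
  · -- discrete
    rw [discreteTopology_subtype_iff']
    rintro _ ⟨n, rfl⟩
    refine ⟨(fun x => ev x (mon (1, 0))) ⁻¹' Metric.ball (au n : ℂ) 1,
      Metric.isOpen_ball.preimage (continuous_ev _), ?_⟩
    ext x
    constructor
    · rintro ⟨hx, ⟨m, rfl⟩⟩
      have hx' : dist (ux (sp m) : ℂ) (au n) < 1 := hx
      rw [sp, ux_pt] at hx'
      by_contra hne
      have : m ≠ n := fun h => hne (by rw [h]; rfl)
      exact absurd (hdist m n this) (not_le.2 hx')
    · intro hx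
      rw [Set.mem_singleton_iff] at hx
      subst hx
      refine ⟨?_, ⟨n, rfl⟩⟩
      show dist (ux (sp n) : ℂ) (au n) < 1
      rw [sp, ux_pt, dist_self]
      exact one_pos
  · exact Set.infinite_range_of_injective sp_injective
  · -- extension
    intro f hf
    have hσ : ∀ n, ∃ m, sp m = (f ⟨sp n, ⟨n, rfl⟩⟩ : Points L) := fun n =>
      (f ⟨sp n, ⟨n, rfl⟩⟩).2
    choose σ hσ using hσ
    have hσinj : Function.Injective σ := by
      intro m n h
      have h1 : f ⟨sp m, ⟨m, rfl⟩⟩ = f ⟨sp n, ⟨n, rfl⟩⟩ := by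
        apply Subtype.ext
        rw [← hσ m, ← hσ n, h]
      have h2 := hf h1
      exact sp_injective (congrArg Subtype.val h2)
    have hainj : Function.Injective (fun n => (au n : ℂ)) := fun m n h => au_injective (Units.ext h)
    have ha0 : ∀ n, (au n : ℂ) ≠ 0 := fun n => (au n).ne_zero
    have hlim : Tendsto (fun n => ‖(au n : ℂ)‖) atTop atTop := by
      have : (fun n => ‖(au n : ℂ)‖) = fun n : ℕ => (n : ℝ) + 1 := by
        funext n
        have : (au n : ℂ) = ((n + 1 : ℕ) : ℂ) := by simp [au]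
        rw [this, Complex.norm_natCast]
        push_cast; ring
      rw [this]
      exact tendsto_atTop_add_const_right _ _ tendsto_natCast_atTop_atTop
    obtain ⟨φ, hφ, hφ'⟩ := exists_entire_interp (fun n => (au n : ℂ)) hainj ha0 hlim
      (fun n => Complex.log (au (σ n)))
    classical
    obtain ⟨ψ, hψ, hψ'⟩ := exists_entire_interp (fun n => (au n : ℂ)) hainj ha0 hlim
      (fun m => if h : ∃ n, σ n = m then Complex.log ((au m * (au h.choose)⁻¹ : ℂˣ) : ℂ) else 0)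
    have hψσ : ∀ n, expU (ψ (au (σ n))) = au (σ n) * (au n)⁻¹ := by
      intro n
      ext1
      show Complex.exp _ = _
      rw [hψ' (σ n)]
      have hex : ∃ k, σ k = σ n := ⟨n, rfl⟩
      rw [dif_pos hex]
      have hk : hex.choose = n := hσinj hex.choose_spec
      rw [hk, log_surj]
    have hφσ : ∀ n, expU (φ (au n)) = au (σ n) := by
      intro n
      ext1
      show Complex.exp _ = _
      rw [hφ' n, log_surj]
    refine ⟨((shear₂ φ).trans (shear₁ ψ)).trans quo, ?_, ?_, ?_⟩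
    · apply HolT.isHolomorphicMap
      exact quo_holT.1.comp ((shear₁_holT ψ hψ).1.comp (shear₂_holT φ hφ).1)
    · apply HolT.isHolomorphicMap
      exact (shear₂_holT φ hφ).2.comp ((shear₁_holT ψ hψ).2.comp quo_holT.2)
    · rintro ⟨_, ⟨n, rfl⟩⟩
      rw [← hσ n]
      show quo (shear₁ ψ (shear₂ φ (sp n))) = sp (σ n)
      have e1 : shear₂ φ (sp n) = pt (au n) (au (σ n)) := by
        show pt (ux (sp n)) (uy (sp n) * expU (φ (ux (sp n)))) = _
        rw [sp, ux_pt, uy_pt, hφσ, one_mul]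
      have e2 : shear₁ ψ (pt (au n) (au (σ n))) = pt (au (σ n)) (au (σ n)) := by
        show pt (ux (pt (au n) (au (σ n))) * expU (ψ (uy (pt (au n) (au (σ n))))))
          (uy (pt (au n) (au (σ n)))) = _
        rw [ux_pt, uy_pt, hψσ]
        congr 1
        rw [mul_comm, mul_assoc, inv_mul_cancel, mul_one]
      have e3 : quo (pt (au (σ n)) (au (σ n))) = sp (σ n) := by
        show pt (ux (pt (au (σ n)) (au (σ n)))) (uy (pt (au (σ n)) (au (σ n))) *
          (ux (pt (au (σ n)) (au (σ n))))⁻¹) = _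
        rw [ux_pt, uy_pt, mul_inv_cancel, sp]
      rw [e1, e2, e3]

end Pool.Agent.Lib.MP_acc6f5_ag
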