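import Pool.Agent.Lib.MP_acc6f5_ag.Gronwall
import Pool.Agent.Lib.MP_acc6f5_ag.Deriv
import Pool.Agent.Lib.MP_acc6f5_ag.Tame

/-!
# Cauchy estimates for complete fields on the torus
-/

open scoped Topology NNReal
open Filter Metric Set

namespace Pool.Agent.Lib.MP_acc6f5_ag

/-- Points of the compact torus. -/
noncomputable def tp (p : Circle × Circle) : Points L :=
  pt (Circle.toUnits p.1) (Circle.toUnits p.2)

/-- The estimates satisfied by complete fields. -/
def SB (D : Derivation ℂ L L) (a : L) : Prop :=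
  ∀ R : ℝ, 0 < R → ∃ C : ℝ, ∀ (k : ℕ) (p : Circle × Circle),
    ‖ev (tp p) ((⇑D)^[k] a)‖ ≤ k.factorial * C / R ^ k

/-- exponents of the generators -/
def ee : Fin 4 → ℤ × ℤ := ![(1, 0), (0, 1), (-1, 0), (0, -1)]

/-- The embedding of the torus in four space. -/
noncomputable def coords (x : Points L) : Fin 4 → ℂ := fun i => ev x (mon (ee i))

lemma ev_mon_eq (x : Points L) (m : ℤ × ℤ) :
    ev x (mon m) = (ux x : ℂ) ^ m.1 * (uy x : ℂ) ^ m.2 := by
  rw [algHom_mon]
  simp [ux, uy]

lemma zpow_toNat (z : ℂ) (n : ℤ) :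
    z ^ n = z ^ n.toNat * (z⁻¹) ^ (-n).toNat := by
  rcases le_total 0 n with h | h
  · have h2 : (-n).toNat = 0 := Int.toNat_of_nonpos (by omega)
    rw [h2, pow_zero, mul_one]
    conv_lhs => rw [← Int.toNat_of_nonneg h]
    rw [zpow_natCast]
  · have h2 : n.toNat = 0 := Int.toNat_of_nonpos h
    rw [h2, pow_zero, one_mul, inv_pow, ← zpow_natCast, Int.toNat_of_nonneg (by omega), zpow_neg,
      inv_inv]

lemma exists_poly (a : L) : ∃ H : (Fin 4 → ℂ) → ℂ, ContDiff ℂ 1 H ∧
    ∀ x : Points L, ev x a = H (coords x) := by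
  refine L_induction (P := fun a => ∃ H : (Fin 4 → ℂ) → ℂ, ContDiff ℂ 1 H ∧
    ∀ x : Points L, ev x a = H (coords x)) a
    ⟨fun _ => 0, contDiff_const, fun x => by simp⟩ ?_ ?_
  · rintro f g ⟨H, hH, hH'⟩ ⟨K, hK, hK'⟩
    exact ⟨fun p => H p + K p, hH.add hK, fun x => by rw [map_add, hH', hK']⟩
  · intro c m
    refine ⟨fun p => c * ((p 0 ^ m.1.toNat * p 2 ^ (-m.1).toNat) *
      (p 1 ^ m.2.toNat * p 3 ^ (-m.2).toNat)), by fun_prop, fun x => ?_⟩
    rw [map_smul, ev_mon_eq, zpow_toNat (ux x : ℂ), zpow_toNat (uy x : ℂ)]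
    have e0 : coords x 0 = ux x := rfl
    have e1 : coords x 1 = uy x := rfl
    have e2 : coords x 2 = (ux x : ℂ)⁻¹ := by
      show ev x (mon (-1, 0)) = _
      rw [ev_mon_eq]; simp
    have e3 : coords x 3 = (uy x : ℂ)⁻¹ := by
      show ev x (mon (0, -1)) = _
      rw [ev_mon_eq]; simp
    show _ = c * ((coords x 0 ^ m.1.toNat * coords x 2 ^ (-m.1).toNat) *
      (coords x 1 ^ m.2.toNat * coords x 3 ^ (-m.2).toNat))
    rw [e0, e1, e2, e3, smul_eq_mul]

lemma continuous_coords_tp : Continuous fun p : Circle × Circle => coords (tp p) := by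
  apply continuous_pi
  intro i
  have h : (fun p : Circle × Circle => coords (tp p) i) = fun p : Circle × Circle =>
      (p.1 : ℂ) ^ (ee i).1 * (p.2 : ℂ) ^ (ee i).2 := by
    funext p
    show ev (tp p) (mon (ee i)) = _
    rw [ev_mon_eq]
    simp [tp]
  rw [h]
  have h1 : Continuous fun p : Circle × Circle => (p.1 : ℂ) ^ (ee i).1 :=
    (by fun_prop : Continuous fun p : Circle × Circle => (p.1 : ℂ)).zpow₀ _
      fun p => Or.inl p.1.coe_ne_zero
  have h2 : Continuous fun p : Circle × Circle => (p.2 : ℂ) ^ (ee i).2 :=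
    (by fun_prop : Continuous fun p : Circle × Circle => (p.2 : ℂ)).zpow₀ _
      fun p => Or.inl p.2.coe_ne_zero
  exact h1.mul h2

/-- **Cauchy estimates** for complete fields. -/
theorem complete_SB (D : Derivation ℂ L L) (hD : IsComplete D) (a : L) : SB D a := by
  intro R hR
  -- integral curves
  choose γ hγ0 hγ using fun p : Circle × Circle => hD (tp p)
  -- the polynomial field on four space
  choose H hH hH' using fun i : Fin 4 => exists_poly (D (mon (ee i)))
  set V : (Fin 4 → ℂ) → (Fin 4 → ℂ) := fun p i => H i p with hV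
  have hVc : ContDiff ℂ 1 V := contDiff_pi.2 hH
  have hcurve : ∀ p t, HasDerivAt (fun s => coords (γ p s)) (V (coords (γ p t))) t := by
    intro p t
    rw [hasDerivAt_pi]
    intro i
    have := hγ p (mon (ee i)) t
    rw [hH' i] at this
    exact this
  have hc0 : Continuous fun p : Circle × Circle => coords (γ p 0) := by
    have : (fun p : Circle × Circle => coords (γ p 0)) = fun p => coords (tp p) := by
      funext p; rw [hγ0]
    rw [this]
    exact continuous_coords_tp
  obtain ⟨M, hM⟩ := uniform_bound V (lipschitz_ball V hVc) (fun p s => coords (γ p s)) hcurve hc0 R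
  obtain ⟨K, hK, hK'⟩ := exists_poly a
  obtain ⟨C, hC⟩ := (isCompact_closedBall (0 : Fin 4 → ℂ) M).exists_bound_of_continuousOn
    hK.continuous.continuousOn
  refine ⟨C, fun k p => ?_⟩
  have hiter : ∀ k, iteratedDeriv k (fun t => ev (γ p t) a) =
      fun t => ev (γ p t) ((⇑D)^[k] a) := by
    intro k
    induction k with
    | zero => simp
    | succ k ih =>
      rw [iteratedDeriv_succ, ih]
      funext t
      rw [Function.iterate_succ_apply']
      exact (hγ p _ t).deriv
  have hbound : ∀ z ∈ sphere (0 : ℂ) R, ‖ev (γ p z) a‖ ≤ C := by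
    intro z hz
    rw [hK']
    apply hC
    rw [mem_closedBall, dist_zero_right]
    apply hM
    rw [mem_sphere, dist_zero_right] at hz
    exact hz.le
  have hdiff : Differentiable ℂ (fun t => ev (γ p t) a) := fun t => (hγ p a t).differentiableAt
  have := Complex.norm_iteratedDeriv_le_of_forall_mem_sphere_norm_le k hR hdiff.diffContOnCl hbound
  rw [hiter k] at this
  simp only [hγ0] at this
  exact this

end Pool.Agent.Lib.MP_acc6f5_ag
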