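import Mathlib

/-!
# Affine-algebraic manifolds, tame sets, algebraic flexibility, algebraic density property

An affine variety `X` over `ℂ` is given by its coordinate ring `A`; its points are the `ℂ`-algebra
homomorphisms `A → ℂ`, and `x a` is the value at the point `x` of the regular function `a`.
-/

open scoped Topology

namespace Pool.Agent.Lib.MP_acc6f5_ag

/-- The set of (complex) points of the affine variety `X` with coordinate ring `A`:
a point is an algebra homomorphism `A → ℂ`, namely `a ↦ a(x)`. -/
def Points (A : Type*) [CommRing A] [Algebra ℂ A] : Type _ := A →ₐ[ℂ] ℂ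

variable {A : Type*} [CommRing A] [Algebra ℂ A]

/-- The value at the point `x` of the regular function `a`. -/
noncomputable def ev (x : Points A) : A →ₐ[ℂ] ℂ := x

/-- The classical (analytic) topology on the set of points of `X`: the coarsest topology for which
all regular functions are continuous. -/
noncomputable instance : TopologicalSpace (Points A) :=
  TopologicalSpace.induced (fun x : Points A => fun a : A => ev x a) inferInstance

/-- `X` is an affine-algebraic manifold: a smooth irreducible affine variety over `ℂ`. -/
structure IsAffineAlgebraicManifold (A : Type*) [CommRing A] [Algebra ℂ A] : Prop where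
  irreducible : IsDomain A
  finiteType : Algebra.FiniteType ℂ A
  smooth : Algebra.Smooth ℂ A

/-- A function on `X` is holomorphic if near every point it is an analytic function of finitely
many regular functions. -/
def IsHolomorphic (f : Points A → ℂ) : Prop :=
  ∀ x : Points A, ∃ (n : ℕ) (a : Fin n → A) (G : (Fin n → ℂ) → ℂ),
    AnalyticAt ℂ G (fun i => ev x (a i)) ∧ ∀ᶠ y in 𝓝 x, f y = G (fun i => ev y (a i))

/-- A map `F : X → X` is holomorphic if the pull back of every regular function is holomorphic. -/
def IsHolomorphicMap (F : Points A → Points A) : Prop :=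
  ∀ a : A, IsHolomorphic fun x => ev (F x) a

/-- A tame set in `X`: a closed, discrete, infinite subset `S` such that every injective map
`S → S` extends to a holomorphic automorphism of `X`. -/
structure IsTameSet (S : Set (Points A)) : Prop where
  closed : IsClosed S
  discrete : DiscreteTopology S
  infinite : S.Infinite
  extend : ∀ f : S → S, Function.Injective f → ∃ F : Points A ≃ Points A,
    IsHolomorphicMap F ∧ IsHolomorphicMap F.symm ∧ ∀ x : S, F x = f x

/-- The group of algebraic automorphisms of `X` acts transitively on the points of `X`. -/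
def AlgAutTransitive (A : Type*) [CommRing A] [Algebra ℂ A] : Prop :=
  ∀ x y : Points A, ∃ φ : A ≃ₐ[ℂ] A, ∀ a : A, ev y a = ev x (φ a)

/-- A regular action `(t, x) ↦ ρ t x` of the additive group `𝔾ₐ = (ℂ, +)` on `X`. Regularity: for
every regular function `a` the function `(t, x) ↦ a (ρ t x)` is a polynomial in `t` whose
coefficients are regular functions of `x`. -/
structure IsGaAction (ρ : ℂ → Points A → Points A) : Prop where
  zero : ∀ x, ρ 0 x = x
  add : ∀ s t x, ρ (s + t) x = ρ s (ρ t x)
  regular : ∀ a : A, ∃ p : Polynomial A, ∀ t x, ev (ρ t x) a = (p.map (ev x : A →+* ℂ)).eval t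

/-- The tangent space `T_x X`: the space of point derivations at `x`, i.e. the linear maps
`δ : A → ℂ` with `δ (a b) = a(x) δ b + b(x) δ a`. -/
def tangentSpace (x : Points A) : Submodule ℂ (A →ₗ[ℂ] ℂ) where
  carrier := {δ | ∀ a b : A, δ (a * b) = ev x a * δ b + ev x b * δ a}
  add_mem' := by
    intro δ ε hδ hε a b
    simp only [LinearMap.add_apply, hδ a b, hε a b]
    ring
  zero_mem' := by intro a b; simp
  smul_mem' := by
    intro c δ hδ a b
    simp only [LinearMap.smul_apply, smul_eq_mul, hδ a b]
    ring

/-- `X` is algebraically flexible: for every point `x`, the tangent space `T_x X` is spanned by the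
tangent vectors `a ↦ d/dt|_{t=0} a (ρ t x)` at `x` of the orbits of the regular `𝔾ₐ`-actions `ρ`
on `X`. -/
def IsAlgebraicallyFlexible (A : Type*) [CommRing A] [Algebra ℂ A] : Prop :=
  ∀ x : Points A, tangentSpace x ≤ Submodule.span ℂ
    {δ : A →ₗ[ℂ] ℂ | ∃ ρ : ℂ → Points A → Points A, IsGaAction ρ ∧
      ∀ a : A, δ a = deriv (fun t => ev (ρ t x) a) 0}

/-- An algebraic vector field on `X` is a derivation of `A`. It is complete if through every point
of `X` there passes an integral curve defined for all complex times. -/
def IsComplete (D : Derivation ℂ A A) : Prop :=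
  ∀ x : Points A, ∃ γ : ℂ → Points A, γ 0 = x ∧
    ∀ (a : A) (t : ℂ), HasDerivAt (fun s => ev (γ s) a) (ev (γ t) (D a)) t

/-- `X` has the algebraic density property: the Lie algebra generated by the complete algebraic
vector fields on `X` is the Lie algebra of all algebraic vector fields on `X`. -/
def HasAlgebraicDensityProperty (A : Type*) [CommRing A] [Algebra ℂ A] : Prop :=
  LieSubalgebra.lieSpan ℂ (Derivation ℂ A A) {D | IsComplete D} = ⊤

end Pool.Agent.Lib.MP_acc6f5_ag
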