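import Pool.Agent.Lib.MP_acc6f5_ag.Deriv

/-!
# Divergence of vector fields on the torus, transitivity, and failure of flexibility
-/

open scoped Topology

namespace Pool.Agent.Lib.MP_acc6f5_ag

/-- The divergence for the Haar form. -/
noncomputable def dvg (D : Derivation ℂ L L) : L := θ₁ (fD D) + θ₂ (gD D)

lemma D_apply (D : Derivation ℂ L L) (h : L) : D h = fD D * θ₁ h + gD D * θ₂ h := by
  conv_lhs => rw [derivation_eq D]
  simp

lemma fD_add (D E : Derivation ℂ L L) : fD (D + E) = fD D + fD E := by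
  show mon (-(1, 0)) * ((D + E) (mon (1, 0))) = mon (-(1, 0)) * (D (mon (1, 0))) +
    mon (-(1, 0)) * (E (mon (1, 0)))
  rw [Derivation.add_apply, mul_add]

lemma gD_add (D E : Derivation ℂ L L) : gD (D + E) = gD D + gD E := by
  show mon (-(0, 1)) * ((D + E) (mon (0, 1))) = mon (-(0, 1)) * (D (mon (0, 1))) +
    mon (-(0, 1)) * (E (mon (0, 1)))
  rw [Derivation.add_apply, mul_add]

lemma fD_smul (c : ℂ) (D : Derivation ℂ L L) : fD (c • D) = c • fD D := by
  show mon (-(1, 0)) * ((c • D) (mon (1, 0))) = c • (mon (-(1, 0)) * (D (mon (1, 0))))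
  rw [Derivation.smul_apply, mul_smul_comm]

lemma gD_smul (c : ℂ) (D : Derivation ℂ L L) : gD (c • D) = c • gD D := by
  show mon (-(0, 1)) * ((c • D) (mon (0, 1))) = c • (mon (-(0, 1)) * (D (mon (0, 1))))
  rw [Derivation.smul_apply, mul_smul_comm]

lemma D_mon10 (D : Derivation ℂ L L) : D (mon (1, 0)) = mon (1, 0) * fD D := by
  rw [D_mon]; simp

lemma D_mon01 (D : Derivation ℂ L L) : D (mon (0, 1)) = mon (0, 1) * gD D := by
  rw [D_mon]; simp

lemma fD_lie (D E : Derivation ℂ L L) : fD ⁅D, E⁆ = D (fD E) - E (fD D) := by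
  show mon (-(1, 0)) * (⁅D, E⁆ (mon (1, 0))) = _
  rw [Derivation.commutator_apply, D_mon10 D, D_mon10 E, D.leibniz, E.leibniz, D_mon10 D,
    D_mon10 E]
  simp only [smul_eq_mul]
  linear_combination (D (fD E) - E (fD D)) * mon_mul_neg (1, 0)

lemma gD_lie (D E : Derivation ℂ L L) : gD ⁅D, E⁆ = D (gD E) - E (gD D) := by
  show mon (-(0, 1)) * (⁅D, E⁆ (mon (0, 1))) = _
  rw [Derivation.commutator_apply, D_mon01 D, D_mon01 E, D.leibniz, E.leibniz, D_mon01 D,
    D_mon01 E]
  simp only [smul_eq_mul]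
  linear_combination (D (gD E) - E (gD D)) * mon_mul_neg (0, 1)

lemma θ_comm (h : L) : θ₁ (θ₂ h) = θ₂ (θ₁ h) := by
  ext m
  simp only [θ₁, θ₂, euler_coeff]
  ring

lemma dvg_lie (D E : Derivation ℂ L L) : dvg ⁅D, E⁆ = D (dvg E) - E (dvg D) := by
  simp only [dvg, fD_lie, gD_lie, D_apply D, D_apply E, map_add, map_sub, Derivation.leibniz,
    smul_eq_mul, θ_comm]
  ring

/-- The Lie algebra of divergence free fields. -/
noncomputable def divFree : LieSubalgebra ℂ (Derivation ℂ L L) where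
  carrier := {D | dvg D = 0}
  add_mem' := by
    intro D E hD hE
    simp only [Set.mem_ofPred_eq, dvg] at *
    rw [fD_add, gD_add, map_add, map_add]
    linear_combination hD + hE
  zero_mem' := by
    have h1 : fD (0 : Derivation ℂ L L) = 0 := by
      show mon (-(1, 0)) * ((0 : Derivation ℂ L L) (mon (1, 0))) = 0
      simp
    have h2 : gD (0 : Derivation ℂ L L) = 0 := by
      show mon (-(0, 1)) * ((0 : Derivation ℂ L L) (mon (0, 1))) = 0
      simp
    simp [dvg, h1, h2]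
  smul_mem' := by
    intro c D hD
    simp only [Set.mem_ofPred_eq, dvg] at *
    rw [fD_smul, gD_smul, Derivation.map_smul, Derivation.map_smul, ← smul_add, hD, smul_zero]
  lie_mem' := by
    intro D E hD hE
    simp only [Set.mem_ofPred_eq] at *
    rw [dvg_lie, hD, hE, map_zero, map_zero, sub_zero]

lemma divFree_ne_top : divFree ≠ ⊤ := by
  intro h
  have h1 : mon (1, 0) • θ₁ + (0 : L) • θ₂ ∈ divFree := by rw [h]; trivial
  have h2 : dvg (mon (1, 0) • θ₁ + (0 : L) • θ₂) = 0 := h1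
  rw [dvg, fD_mk, gD_mk, map_zero, add_zero, θ₁, euler_mon] at h2
  have h3 : ((c1 (1, 0)) • mon (1, 0)).coeff (1, 0) = (0 : L).coeff (1, 0) := by rw [h2]
  simp [mon_coeff] at h3

/-- If all complete fields are divergence free, the algebraic density property fails. -/
lemma not_adp_of (h : ∀ D : Derivation ℂ L L, IsComplete D → dvg D = 0) :
    ¬ HasAlgebraicDensityProperty L := by
  intro hADP
  have h1 : LieSubalgebra.lieSpan ℂ (Derivation ℂ L L) {D | IsComplete D} ≤ divFree := by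
    rw [LieSubalgebra.lieSpan_le]
    intro D hD
    exact h D hD
  rw [HasAlgebraicDensityProperty] at hADP
  rw [hADP] at h1
  exact divFree_ne_top (top_le_iff.1 h1)

/-- The algebraic automorphisms act transitively. -/
theorem algAutTransitive_L : AlgAutTransitive L := by
  intro x y
  -- scaling by `s`, `t`
  have key : ∀ s t : ℂˣ, ∀ m : ℤ × ℤ,
      liftU (B := L) ((Units.map (algebraMap ℂ L : ℂ →* L) s) * monU (1, 0))
        ((Units.map (algebraMap ℂ L : ℂ →* L) t) * monU (0, 1)) (mon m) =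
      ((s ^ m.1 * t ^ m.2 : ℂˣ) : ℂ) • mon m := by
    intro s t m
    have e1 : (Units.map (algebraMap ℂ L : ℂ →* L) s) ^ m.1 *
        (Units.map (algebraMap ℂ L : ℂ →* L) t) ^ m.2 =
        Units.map (algebraMap ℂ L : ℂ →* L) (s ^ m.1 * t ^ m.2) := by
      rw [map_mul, map_zpow, map_zpow]
    rw [liftU_mon, mul_zpow, mul_zpow, mul_mul_mul_comm, ← monU_eq, e1, Units.val_mul,
      Algebra.smul_def]
    rfl
  let s : ℂˣ := (Units.map (ev y : L →* ℂ) (monU (1, 0))) * (Units.map (ev x : L →* ℂ) (monU (1, 0)))⁻¹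
  let t : ℂˣ := (Units.map (ev y : L →* ℂ) (monU (0, 1))) * (Units.map (ev x : L →* ℂ) (monU (0, 1)))⁻¹
  let φ : L →ₐ[ℂ] L := liftU (B := L) ((Units.map (algebraMap ℂ L : ℂ →* L) s) * monU (1, 0))
        ((Units.map (algebraMap ℂ L : ℂ →* L) t) * monU (0, 1))
  let ψ : L →ₐ[ℂ] L := liftU (B := L) ((Units.map (algebraMap ℂ L : ℂ →* L) s⁻¹) * monU (1, 0))
        ((Units.map (algebraMap ℂ L : ℂ →* L) t⁻¹) * monU (0, 1))
  have h1 : φ.comp ψ = AlgHom.id ℂ L := by
    apply algHom_eq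
    · simp only [AlgHom.comp_apply, φ, ψ, key, map_smul, smul_smul]
      simp
    · simp only [AlgHom.comp_apply, φ, ψ, key, map_smul, smul_smul]
      simp
  have h2 : ψ.comp φ = AlgHom.id ℂ L := by
    apply algHom_eq
    · simp only [AlgHom.comp_apply, φ, ψ, key, map_smul, smul_smul]
      simp
    · simp only [AlgHom.comp_apply, φ, ψ, key, map_smul, smul_smul]
      simp
  refine ⟨AlgEquiv.ofAlgHom φ ψ h1 h2, ?_⟩
  intro a
  show ev y a = ((ev x).comp φ) a
  congr 1
  apply algHom_eq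
  · simp only [AlgHom.comp_apply, φ, key, map_smul, s, t, smul_eq_mul]
    simp
    have : ev x (mon (1, 0)) ≠ 0 := (Units.map (ev x : L →* ℂ) (monU (1, 0))).ne_zero
    field_simp
  · simp only [AlgHom.comp_apply, φ, key, map_smul, s, t, smul_eq_mul]
    simp
    have : ev x (mon (0, 1)) ≠ 0 := (Units.map (ev x : L →* ℂ) (monU (0, 1))).ne_zero
    field_simp

lemma ev_mon_ne (x : Points L) (m : ℤ × ℤ) : ev x (mon m) ≠ 0 :=
  (Units.map (ev x : L →* ℂ) (monU m)).ne_zero

/-- Regular actions of the additive group on the torus are trivial on monomials. -/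
lemma ga_mon (ρ : ℂ → Points L → Points L) (hρ : IsGaAction ρ) (x : Points L) (m : ℤ × ℤ) (t : ℂ) :
    ev (ρ t x) (mon m) = ev x (mon m) := by
  obtain ⟨p, hp⟩ := hρ.regular (mon m)
  set q : Polynomial ℂ := p.map (ev x : L →+* ℂ) with hq
  have hne : ∀ s : ℂ, q.eval s ≠ 0 := by
    intro s
    rw [hq, ← hp s x]
    exact ev_mon_ne _ _
  have hdeg : q.degree ≤ 0 := by
    by_contra hlt
    obtain ⟨z, hz⟩ := IsAlgClosed.exists_root q (fun h0 => hlt (le_of_eq h0))
    exact hne z hz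
  have hc := Polynomial.eq_C_of_degree_le_zero hdeg
  have h0 : ev (ρ 0 x) (mon m) = ev x (mon m) := by rw [hρ.zero]
  rw [hp t x, ← hq, hc, Polynomial.eval_C]
  rw [hp 0 x, ← hq, hc, Polynomial.eval_C] at h0
  exact h0

theorem not_flexible_L : ¬ IsAlgebraicallyFlexible L := by
  intro hflex
  let x : Points L := (liftU 1 1 : L →ₐ[ℂ] ℂ)
  let δ : L →ₗ[ℂ] ℂ := (ev x).toLinearMap ∘ₗ (θ₁ : Derivation ℂ L L).toLinearMap
  have hδ : δ ∈ tangentSpace x := by
    intro a b
    show ev x (θ₁ (a * b)) = ev x a * ev x (θ₁ b) + ev x b * ev x (θ₁ a)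
    rw [Derivation.leibniz, map_add]
    simp
  have hspan := hflex x hδ
  have hle : Submodule.span ℂ {δ : L →ₗ[ℂ] ℂ | ∃ ρ : ℂ → Points L → Points L, IsGaAction ρ ∧
      ∀ a : L, δ a = deriv (fun t => ev (ρ t x) a) 0} ≤
      LinearMap.ker (LinearMap.applyₗ (R := ℂ) (M₂ := ℂ) (mon (1, 0))) := by
    rw [Submodule.span_le]
    rintro ε ⟨ρ, hρ, hε⟩
    show ε (mon (1, 0)) = 0
    rw [hε]
    have : (fun t => ev (ρ t x) (mon (1, 0))) = fun _ => ev x (mon (1, 0)) := by
      funext t; exact ga_mon ρ hρ x _ t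
    rw [this]
    simp
  have h0 : δ (mon (1, 0)) = 0 := hle hspan
  have h1 : δ (mon (1, 0)) = ev x (mon (1, 0)) := by
    show ev x (θ₁ (mon (1, 0))) = _
    rw [θ₁, euler_mon, map_smul]
    simp
  exact ev_mon_ne x (1, 0) (h1 ▸ h0)

end Pool.Agent.Lib.MP_acc6f5_ag
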