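import Pool.Agent.Lib.MP_acc6f5_ag.Flow

/-!
# Complete algebraic vector fields on the torus are divergence free
-/

open scoped Topology NNReal
open Filter Metric Set Finset

namespace Pool.Agent.Lib.MP_acc6f5_ag

/-- A finite set of lattice points not on a line through the origin has an edge not on a line
through the origin. -/
lemma exists_edge (S : Finset (ℤ × ℤ)) (s t : ℤ × ℤ) (hs : s ∈ S) (ht : t ∈ S)
    (hst : s.1 * t.2 - s.2 * t.1 ≠ 0) :
    ∃ (ℓ : ℤ × ℤ →+ ℤ) (m : ℤ), m ≠ 0 ∧ (∀ x ∈ S, ℓ x ≤ m) ∧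
      ∃ v ∈ S, ∃ w ∈ S, v ≠ w ∧ ℓ v = m ∧ ℓ w = m := by
  obtain ⟨v, hv, hmax⟩ := S.exists_max_image (fun x => x.1 * x.1 + x.2 * x.2) ⟨s, hs⟩
  have hv0 : 0 < v.1 * v.1 + v.2 * v.2 := by
    have h1 := hmax s hs
    have h2 : 0 < s.1 * s.1 + s.2 * s.2 := by
      by_contra hle
      have h3 : s.1 = 0 := by nlinarith [mul_self_nonneg s.1, mul_self_nonneg s.2]
      have h4 : s.2 = 0 := by nlinarith [mul_self_nonneg s.1, mul_self_nonneg s.2]
      apply hst
      rw [h3, h4]; ring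
    exact lt_of_lt_of_le h2 h1
  obtain ⟨s', hs', hdet⟩ : ∃ s' ∈ S, v.1 * s'.2 - v.2 * s'.1 ≠ 0 := by
    by_contra hcon
    push Not at hcon
    have h1 := hcon s hs
    have h2 := hcon t ht
    have h3 : v.1 * (s.1 * t.2 - s.2 * t.1) = 0 := by
      linear_combination s.1 * h2 - t.1 * h1
    have h4 : v.2 * (s.1 * t.2 - s.2 * t.1) = 0 := by
      linear_combination s.2 * h2 - t.2 * h1
    have h5 : v.1 = 0 := (mul_eq_zero.1 h3).resolve_right hst
    have h6 : v.2 = 0 := (mul_eq_zero.1 h4).resolve_right hst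
    rw [h5, h6] at hv0
    simp at hv0
  obtain ⟨ε, hε⟩ : ∃ ε : ℤ, 0 < ε * (v.1 * s'.2 - v.2 * s'.1) := by
    rcases lt_or_gt_of_ne hdet with h | h
    · exact ⟨-1, by linarith⟩
    · exact ⟨1, by linarith⟩
  set d : ℤ × ℤ → ℤ := fun x => ε * (v.1 * x.2 - v.2 * x.1) with hd
  set N : ℤ × ℤ → ℤ := fun x => (v.1 * v.1 + v.2 * v.2) - (x.1 * v.1 + x.2 * v.2) with hN
  have hNnonneg : ∀ x ∈ S, 0 ≤ N x := by
    intro x hx
    have h1 := hmax x hx
    simp only [hN]
    nlinarith [mul_self_nonneg (x.1 - v.1), mul_self_nonneg (x.2 - v.2)]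
  obtain ⟨s₀, hs₀, hmin⟩ := (S.filter fun x => 0 < d x).exists_min_image
    (fun x => (N x : ℚ) / (d x : ℚ)) ⟨s', by simp [hs', hd, hε]⟩
  rw [Finset.mem_filter] at hs₀
  have hkey : ∀ x ∈ S, N s₀ * d x ≤ d s₀ * N x := by
    intro x hx
    by_cases hdx : 0 < d x
    · have h1 := hmin x (by rw [Finset.mem_filter]; exact ⟨hx, hdx⟩)
      have h2 : (0 : ℚ) < d x := by exact_mod_cast hdx
      have h3 : (0 : ℚ) < d s₀ := by exact_mod_cast hs₀.2
      rw [div_le_div_iff₀ h3 h2] at h1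
      have h4 : N s₀ * d x ≤ N x * d s₀ := by exact_mod_cast h1
      linarith
    · have h1 : N s₀ * d x ≤ 0 :=
        mul_nonpos_of_nonneg_of_nonpos (hNnonneg s₀ hs₀.1) (not_lt.1 hdx)
      have h2 : 0 ≤ d s₀ * N x := mul_nonneg hs₀.2.le (hNnonneg x hx)
      linarith
  let ℓ : ℤ × ℤ →+ ℤ :=
    { toFun := fun x => N s₀ * d x + d s₀ * (x.1 * v.1 + x.2 * v.2)
      map_zero' := by simp [hd]
      map_add' := by
        intro x y
        simp only [hd, Prod.fst_add, Prod.snd_add]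
        ring }
  have hℓ : ∀ x, ℓ x = N s₀ * d x + d s₀ * (x.1 * v.1 + x.2 * v.2) := fun x => rfl
  have hdv : d v = 0 := by simp only [hd]; ring
  refine ⟨ℓ, d s₀ * (v.1 * v.1 + v.2 * v.2), ?_, ?_, v, hv, s₀, hs₀.1, ?_, ?_, ?_⟩
  · exact (mul_pos hs₀.2 hv0).ne'
  · intro x hx
    rw [hℓ]
    have h1 := hkey x hx
    have h2 : N x = (v.1 * v.1 + v.2 * v.2) - (x.1 * v.1 + x.2 * v.2) := rfl
    rw [h2] at h1
    linarith
  · intro h
    rw [← h] at hs₀
    have := hs₀.2
    rw [hdv] at this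
    exact lt_irrefl _ this
  · rw [hℓ, hdv]; ring
  · rw [hℓ]
    have h2 : N s₀ = (v.1 * v.1 + v.2 * v.2) - (s₀.1 * v.1 + s₀.2 * v.2) := rfl
    rw [h2]; ring

/-- The support of a derivation. -/
noncomputable def supp (D : Derivation ℂ L L) : Finset (ℤ × ℤ) :=
  (fD D).coeff.support ∪ (gD D).coeff.support

lemma mem_supp {D : Derivation ℂ L L} {x : ℤ × ℤ} :
    x ∈ supp D ↔ (fD D).coeff x ≠ 0 ∨ (gD D).coeff x ≠ 0 := by
  simp [supp]

lemma fD_mem_Fil {D : Derivation ℂ L L} {ℓ : ℤ × ℤ →+ ℤ} {m : ℤ} (h : ∀ x ∈ supp D, ℓ x ≤ m) :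
    fD D ∈ Fil ℓ m := fun x hx => h x (mem_supp.2 (Or.inl hx))

lemma gD_mem_Fil {D : Derivation ℂ L L} {ℓ : ℤ × ℤ →+ ℤ} {m : ℤ} (h : ∀ x ∈ supp D, ℓ x ≤ m) :
    gD D ∈ Fil ℓ m := fun x hx => h x (mem_supp.2 (Or.inr hx))

/-- The divergence vanishes at the vertices of the Newton polygon. -/
lemma top_vertex {D : Derivation ℂ L L} (ℓ : ℤ × ℤ →+ ℤ) (v : ℤ × ℤ) (h : SB D (mon v))
    (hle : ∀ x ∈ supp D, ℓ x ≤ ℓ v) (heq : ∀ x ∈ supp D, ℓ x = ℓ v → x = v) :
    v.1 * (fD D).coeff v + v.2 * (gD D).coeff v = 0 := by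
  have h1 := SB_top (fD_mem_Fil hle) (gD_mem_Fil hle) v h
  have e1 : gp ℓ (ℓ v) (fD D) = (fD D).coeff v • mon v := by
    ext x
    rw [gp_coeff, AddMonoidAlgebra.coeff_smul_apply, mon_coeff]
    by_cases hx : v = x
    · subst hx; simp
    · rw [if_neg hx, smul_zero]
      split_ifs with h2
      · by_contra h3
        exact hx (heq x (mem_supp.2 (Or.inl h3)) h2).symm
      · rfl
  have e2 : gp ℓ (ℓ v) (gD D) = (gD D).coeff v • mon v := by
    ext x
    rw [gp_coeff, AddMonoidAlgebra.coeff_smul_apply, mon_coeff]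
    by_cases hx : v = x
    · subst hx; simp
    · rw [if_neg hx, smul_zero]
      split_ifs with h2
      · by_contra h3
        exact hx (heq x (mem_supp.2 (Or.inr h3)) h2).symm
      · rfl
  rw [top, e1, e2] at h1
  exact vertex v _ _ h1

/-- The case of a field supported on a line through the origin. -/
lemma line_case {D : Derivation ℂ L L} (h : ∀ a, SB D a)
    (hline : ∀ s ∈ supp D, ∀ t ∈ supp D, s.1 * t.2 - s.2 * t.1 = 0) (v : ℤ × ℤ) :
    v.1 * (fD D).coeff v + v.2 * (gD D).coeff v = 0 := by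
  by_cases hvS : v ∈ supp D
  swap
  · rw [mem_supp, not_or, not_not, not_not] at hvS
    rw [hvS.1, hvS.2]; ring
  by_cases hv0 : v = 0
  · subst hv0; simp
  have hn : 0 < v.1 * v.1 + v.2 * v.2 := by
    by_contra hle
    apply hv0
    have h3 : v.1 = 0 := by nlinarith [mul_self_nonneg v.1, mul_self_nonneg v.2]
    have h4 : v.2 = 0 := by nlinarith [mul_self_nonneg v.1, mul_self_nonneg v.2]
    exact Prod.ext h3 h4
  set n : ℤ := v.1 * v.1 + v.2 * v.2 with hndef
  have hnC : (n : ℂ) ≠ 0 := by exact_mod_cast hn.ne'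
  let ℓ : ℤ × ℤ →+ ℤ :=
    { toFun := fun x => x.1 * v.1 + x.2 * v.2
      map_zero' := by simp
      map_add' := by intro x y; simp only [Prod.fst_add, Prod.snd_add]; ring }
  have hℓ : ∀ x, ℓ x = x.1 * v.1 + x.2 * v.2 := fun x => rfl
  let c : ℤ × ℤ →+ ℂ :=
    { toFun := fun x => (ℓ x : ℂ) / n
      map_zero' := by simp
      map_add' := by intro x y; rw [map_add]; push_cast; ring }
  have hc : ∀ x, c x = (ℓ x : ℂ) / n := fun x => rfl
  set P : L := (v.1 : ℂ) • fD D + (v.2 : ℂ) • gD D with hP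
  -- the field `P c`
  set D' : Derivation ℂ L L := (c (1, 0) • P) • θ₁ + (c (0, 1) • P) • θ₂ with hD'
  have hD'mon : ∀ x, D' (mon x) = c x • (mon x * P) := by
    intro x
    have e1 : c x = x.1 * c (1, 0) + x.2 * c (0, 1) := by
      rw [hc, hc, hc, hℓ, hℓ, hℓ]; push_cast; ring
    rw [D_mon, hD', fD_mk, gD_mk, smul_smul, smul_smul, ← add_smul, ← e1, mul_smul_comm]
  -- the line
  have hPsupp : ∀ x, P.coeff x ≠ 0 → x ∈ supp D := by
    intro x hx
    rw [mem_supp]
    by_contra hcon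
    rw [not_or, not_not, not_not] at hcon
    apply hx
    rw [hP, AddMonoidAlgebra.coeff_add, Finsupp.add_apply, AddMonoidAlgebra.coeff_smul_apply,
      AddMonoidAlgebra.coeff_smul_apply, hcon.1, hcon.2]
    simp
  set W : Submodule ℂ L :=
    { carrier := {f | ∀ x, f.coeff x ≠ 0 → v.1 * x.2 - v.2 * x.1 = 0}
      add_mem' := by
        intro f g hf hg x hx
        by_contra hlt
        have h1 : f.coeff x = 0 := by by_contra h; exact hlt (hf x h)
        have h2 : g.coeff x = 0 := by by_contra h; exact hlt (hg x h)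
        apply hx
        simp [h1, h2]
      zero_mem' := by intro m hm; simp at hm
      smul_mem' := by
        intro c f hf m hm
        apply hf m
        intro h
        apply hm
        simp [h] } with hW
  have hWind : ∀ {Q : L → Prop} (f : L), f ∈ W → Q 0 → (∀ f g, Q f → Q g → Q (f + g)) →
      (∀ (r : ℂ) (x : ℤ × ℤ), v.1 * x.2 - v.2 * x.1 = 0 → Q (r • mon x)) → Q f := by
    intro Q f hf h0 hadd hmon
    rw [sum_mon f]
    apply Finset.sum_induction _ Q hadd h0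
    intro x hx
    exact hmon _ x (hf x (by simpa using hx))
  have hPW : P ∈ W := fun x hx => hline v hvS x (hPsupp x hx)
  have hmonW : ∀ x : ℤ × ℤ, v.1 * x.2 - v.2 * x.1 = 0 → mon x ∈ W := by
    intro x hx y hy
    rw [mon_coeff] at hy
    split_ifs at hy with h1
    · rw [← h1]; exact hx
    · exact absurd rfl hy
  have hWmul : ∀ f ∈ W, ∀ x : ℤ × ℤ, v.1 * x.2 - v.2 * x.1 = 0 → mon x * f ∈ W := by
    intro f hf x hx
    refine hWind (Q := fun f => mon x * f ∈ W) f hf (by simp) ?_ ?_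
    · intro f g hf hg; rw [mul_add]; exact add_mem hf hg
    · intro r y hy
      rw [mul_smul_comm, ← mon_add]
      apply Submodule.smul_mem
      apply hmonW
      simp only [Prod.fst_add, Prod.snd_add]
      linear_combination hx + hy
  have hagree : ∀ f ∈ W, D f = D' f ∧ D f ∈ W := by
    intro f hf
    refine hWind (Q := fun f => D f = D' f ∧ D f ∈ W) f hf (by simp) ?_ ?_
    · rintro f g ⟨h1, h1'⟩ ⟨h2, h2'⟩
      rw [map_add, map_add, ← h1, ← h2]
      exact ⟨rfl, add_mem h1' h2'⟩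
    · intro r x hx
      have e1 : (x.1 : ℂ) = c x * v.1 := by
        rw [hc, hℓ, div_mul_eq_mul_div, eq_div_iff hnC, hndef]
        have : x.1 * (v.1 * v.1 + v.2 * v.2) = (x.1 * v.1 + x.2 * v.2) * v.1 := by
          linear_combination (-v.2) * hx
        exact_mod_cast this
      have e2 : (x.2 : ℂ) = c x * v.2 := by
        rw [hc, hℓ, div_mul_eq_mul_div, eq_div_iff hnC, hndef]
        have : x.2 * (v.1 * v.1 + v.2 * v.2) = (x.1 * v.1 + x.2 * v.2) * v.2 := by
          linear_combination v.1 * hx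
        exact_mod_cast this
      have e3 : D (mon x) = D' (mon x) := by
        rw [hD'mon, D_mon, e1, e2, mul_smul, mul_smul, ← smul_add, mul_smul_comm]
      rw [Derivation.map_smul, Derivation.map_smul, e3]
      refine ⟨rfl, ?_⟩
      rw [hD'mon]
      exact Submodule.smul_mem _ _ (Submodule.smul_mem _ _ (hWmul P hPW x hx))
  have hiter : ∀ x : ℤ × ℤ, v.1 * x.2 - v.2 * x.1 = 0 → ∀ k : ℕ,
      (⇑D)^[k] (mon x) = (⇑D')^[k] (mon x) ∧ (⇑D)^[k] (mon x) ∈ W := by
    intro x hx k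
    induction k with
    | zero => exact ⟨rfl, hmonW x hx⟩
    | succ k ih =>
      rw [Function.iterate_succ_apply', Function.iterate_succ_apply', ← ih.1]
      exact ⟨(hagree _ ih.2).1, (hagree _ ih.2).2⟩
  have hSB' : ∀ x : ℤ × ℤ, v.1 * x.2 - v.2 * x.1 = 0 → SB D' (mon x) := by
    intro x hx R hR
    obtain ⟨C, hC⟩ := h (mon x) R hR
    refine ⟨C, fun k p => ?_⟩
    rw [← (hiter x hx k).1]
    exact hC k p
  -- suppose the coefficient is nonzero
  by_contra hne
  have hPv : P.coeff v ≠ 0 := by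
    rw [hP, AddMonoidAlgebra.coeff_add, Finsupp.add_apply, AddMonoidAlgebra.coeff_smul_apply,
      AddMonoidAlgebra.coeff_smul_apply]
    simpa using hne
  obtain ⟨x₀, hx₀, hmax⟩ := P.coeff.support.exists_max_image (fun x => ℓ x)
    ⟨v, by simpa using hPv⟩
  have hx₀' : P.coeff x₀ ≠ 0 := by simpa using hx₀
  have hx₀line : v.1 * x₀.2 - v.2 * x₀.1 = 0 := hPW x₀ hx₀'
  have hsupp' : ∀ x ∈ supp D', P.coeff x ≠ 0 := by
    intro x hx
    rw [mem_supp, hD', fD_mk, gD_mk] at hx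
    intro h0
    rcases hx with hx | hx
    · apply hx; simp [h0]
    · apply hx; simp [h0]
  have htop := top_vertex ℓ x₀ (hSB' x₀ hx₀line)
    (fun x hx => hmax x (by simpa using hsupp' x hx))
    (fun x hx hx' => by
      have h1 : v.1 * x.2 - v.2 * x.1 = 0 := hPW x (hsupp' x hx)
      rw [hℓ, hℓ] at hx'
      have h2 : (v.1 * v.1 + v.2 * v.2) * (x.1 - x₀.1) = 0 := by
        linear_combination v.1 * hx' - v.2 * (h1 - hx₀line)
      have h3 : (v.1 * v.1 + v.2 * v.2) * (x.2 - x₀.2) = 0 := by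
        linear_combination v.2 * hx' + v.1 * (h1 - hx₀line)
      have h4 := (mul_eq_zero.1 h2).resolve_left hn.ne'
      have h5 := (mul_eq_zero.1 h3).resolve_left hn.ne'
      exact Prod.ext (by linarith) (by linarith))
  have hfin : c x₀ * P.coeff x₀ = 0 := by
    rw [hD', fD_mk, gD_mk, AddMonoidAlgebra.coeff_smul_apply,
      AddMonoidAlgebra.coeff_smul_apply] at htop
    have e1 : c x₀ = x₀.1 * c (1, 0) + x₀.2 * c (0, 1) := by
      rw [hc, hc, hc, hℓ, hℓ, hℓ]; push_cast; ring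
    rw [e1]
    simp only [smul_eq_mul] at htop
    linear_combination htop
  have hℓx₀ : 0 < ℓ x₀ := by
    have h1 : ℓ v ≤ ℓ x₀ := hmax v (by simpa using hPv)
    have h2 : ℓ v = n := rfl
    linarith
  rcases mul_eq_zero.1 hfin with h1 | h1
  · rw [hc, div_eq_zero_iff] at h1
    rcases h1 with h1 | h1
    · exact hℓx₀.ne' (by exact_mod_cast h1)
    · exact hnC h1
  · exact hx₀' h1

end Pool.Agent.Lib.MP_acc6f5_ag
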