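import Mathlib

/-!
# The little Picard theorem
-/

open scoped Topology
open Filter Metric

namespace Pool.Agent.Lib.MP_acc6f5_ag

/-- A weak form of Bloch's theorem: an entire function with nonzero derivative somewhere has
arbitrarily large discs in its image. -/
theorem bloch_entire (g : ℂ → ℂ) (hg : Differentiable ℂ g) (z₀ : ℂ) (hz₀ : deriv g z₀ ≠ 0)
    (R : ℝ) : ∃ w : ℂ, ball w R ⊆ Set.range g := by
  have hd : Differentiable ℂ (deriv g) := fun z =>
    ((hg.analyticAt z).deriv).differentiableAt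
  have hc : Continuous (deriv g) := hd.continuous
  -- choose the radius
  obtain ⟨ρ, hρ0, hρ⟩ : ∃ ρ : ℝ, 0 < ρ ∧ 64 * R ≤ ρ * ‖deriv g z₀‖ := by
    have h0 : 0 < ‖deriv g z₀‖ := norm_pos_iff.2 hz₀
    refine ⟨64 * |R| / ‖deriv g z₀‖ + 1, by positivity, ?_⟩
    rw [add_mul, div_mul_cancel₀ _ h0.ne']
    have := le_abs_self R
    nlinarith
  have hcontf : ContinuousOn (fun z => (ρ - dist z z₀) * ‖deriv g z‖) (closedBall z₀ ρ) := by
    fun_prop
  obtain ⟨a, ha, hmax⟩ := (isCompact_closedBall z₀ ρ).exists_isMaxOn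
    ⟨z₀, mem_closedBall_self hρ0.le⟩ hcontf
  have ha' : dist a z₀ ≤ ρ := ha
  have h1 : ρ * ‖deriv g z₀‖ ≤ (ρ - dist a z₀) * ‖deriv g a‖ := by
    have := hmax (mem_closedBall_self hρ0.le)
    simpa using this
  have hpos : 0 < ρ * ‖deriv g z₀‖ := mul_pos hρ0 (norm_pos_iff.2 hz₀)
  have hlt : dist a z₀ < ρ := by
    rcases lt_or_eq_of_le ha' with h | h
    · exact h
    · rw [h] at h1
      simp at h1
      linarith
  set M := ‖deriv g a‖ with hM
  have hMpos : 0 < M := by
    by_contra hneg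
    have : (ρ - dist a z₀) * M ≤ 0 := mul_nonpos_of_nonneg_of_nonpos (by linarith) (by linarith)
    linarith
  set r := (ρ - dist a z₀) / 2 with hr
  have hr0 : 0 < r := by rw [hr]; linarith
  have hrM : ρ * ‖deriv g z₀‖ ≤ 2 * r * M := by
    rw [hr]; linarith
  have hbound : ∀ z ∈ ball a r, ‖deriv g z‖ ≤ 2 * M := by
    intro z hz
    have hz1 : dist z a < r := hz
    have hz2 : dist z z₀ ≤ dist z a + dist a z₀ := dist_triangle _ _ _
    have hz3 : r ≤ ρ - dist z z₀ := by rw [hr] at hz1 ⊢; linarith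
    have hz4 : (ρ - dist z z₀) * ‖deriv g z‖ ≤ (ρ - dist a z₀) * M :=
      hmax (show z ∈ closedBall z₀ ρ by rw [mem_closedBall]; linarith)
    have hz5 : r * ‖deriv g z‖ ≤ r * (2 * M) := by
      calc r * ‖deriv g z‖ ≤ (ρ - dist z z₀) * ‖deriv g z‖ := by gcongr
        _ ≤ (ρ - dist a z₀) * M := hz4
        _ = r * (2 * M) := by rw [hr]; ring
    exact le_of_mul_le_mul_left hz5 hr0
  -- Schwarz lemma for the derivative
  have hsch : ∀ z ∈ ball a r, ‖deriv g z - deriv g a‖ ≤ 4 * M / r * dist z a := by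
    intro z hz
    have hmaps : Set.MapsTo (deriv g) (ball a r) (ball (deriv g a) (4 * M)) := by
      intro y hy
      rw [mem_ball, dist_eq_norm]
      calc ‖deriv g y - deriv g a‖ ≤ ‖deriv g y‖ + ‖deriv g a‖ := norm_sub_le _ _
        _ ≤ 2 * M + M := add_le_add (hbound y hy) le_rfl
        _ < 4 * M := by linarith
    have := Complex.dist_le_div_mul_dist_of_mapsTo_ball hd.differentiableOn
      (hmaps.mono_right ball_subset_closedBall) hz
    rwa [dist_eq_norm] at this
  -- growth on the circle of radius r / 8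
  set s := r / 8 with hs
  have hs0 : 0 < s := by rw [hs]; linarith
  have hlin : ∀ z ∈ closedBall a s, ‖g z - g a - deriv g a * (z - a)‖ ≤ M / 2 * ‖z - a‖ := by
    intro z hz
    have hder : ∀ y ∈ closedBall a s, HasDerivWithinAt (fun y => g y - deriv g a * y)
        (deriv g y - deriv g a) (closedBall a s) y := by
      intro y _
      have h1 : HasDerivAt (fun y => g y - deriv g a * y) (deriv g y - deriv g a * 1) y :=
        (hg y).hasDerivAt.sub ((hasDerivAt_id y).const_mul _)
      rw [mul_one] at h1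
      exact h1.hasDerivWithinAt
    have hb : ∀ y ∈ closedBall a s, ‖deriv g y - deriv g a‖ ≤ M / 2 := by
      intro y hy
      have hy1 : dist y a ≤ s := hy
      have hy2 : y ∈ ball a r := by rw [mem_ball]; rw [hs] at hy1; linarith
      calc ‖deriv g y - deriv g a‖ ≤ 4 * M / r * dist y a := hsch y hy2
        _ ≤ 4 * M / r * s := by gcongr
        _ = M / 2 := by rw [hs]; field_simp; norm_num
    have := (convex_closedBall a s).norm_image_sub_le_of_norm_hasDerivWithin_le hder hb
      (mem_closedBall_self hs0.le) hz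
    have e : g z - g a - deriv g a * (z - a) =
        (g z - deriv g a * z) - (g a - deriv g a * a) := by ring
    rw [e]
    exact this
  have hsphere : ∀ z ∈ sphere a s, M * s / 2 ≤ ‖g z - g a‖ := by
    intro z hz
    have hz1 : ‖z - a‖ = s := by rw [← dist_eq_norm]; exact hz
    have h2 := hlin z (sphere_subset_closedBall hz)
    rw [hz1] at h2
    have h3 : ‖deriv g a * (z - a)‖ = M * s := by rw [norm_mul, hz1]
    have h4 : ‖deriv g a * (z - a)‖ ≤ ‖g z - g a‖ + ‖g z - g a - deriv g a * (z - a)‖ := by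
      calc ‖deriv g a * (z - a)‖ = ‖(g z - g a) - (g z - g a - deriv g a * (z - a))‖ := by
            congr 1; ring
        _ ≤ _ := norm_sub_le _ _
    rw [h3] at h4
    linarith
  have hfreq : ∃ᶠ z in 𝓝 a, g z ≠ g a := by
    intro hev
    have hev' : g =ᶠ[𝓝 a] fun _ => g a := by
      filter_upwards [hev] with z hz
      exact not_not.1 hz
    have h0 : deriv g a = 0 := by
      rw [hev'.deriv_eq]
      simp
    rw [hM, h0] at hMpos
    simp at hMpos
  have hball := DiffContOnCl.ball_subset_image_closedBall (f := g) (z₀ := a) (r := s)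
    (ε := M * s / 2) hg.diffContOnCl hs0 hsphere hfreq
  refine ⟨g a, ?_⟩
  have hR : R ≤ M * s / 2 / 2 := by
    rw [hs]
    have : 64 * R ≤ 2 * r * M := hρ.trans hrM
    nlinarith
  calc ball (g a) R ⊆ ball (g a) (M * s / 2 / 2) := ball_subset_ball hR
    _ ⊆ g '' closedBall a s := hball
    _ ⊆ Set.range g := Set.image_subset_range _ _

/-- A nowhere zero entire function has an entire logarithm. -/
lemma exists_entire_log (f : ℂ → ℂ) (hf : Differentiable ℂ f) (h0 : ∀ z, f z ≠ 0) :
    ∃ g : ℂ → ℂ, Differentiable ℂ g ∧ ∀ z, f z = Complex.exp (g z) := by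
  have hd : Differentiable ℂ (deriv f) := fun z => ((hf.analyticAt z).deriv).differentiableAt
  have hq : Differentiable ℂ (fun z => deriv f z / f z) := hd.fun_div hf h0
  obtain ⟨G, hG⟩ := hq.isExactOn_univ
  have hG' : ∀ z, HasDerivAt G (deriv f z / f z) z := fun z => hG z (Set.mem_univ z)
  have hconst : ∀ z, f z * Complex.exp (-G z) = f 0 * Complex.exp (-G 0) := by
    intro z
    have hder : ∀ y, HasDerivAt (fun y => f y * Complex.exp (-G y)) 0 y := by
      intro y
      have h := (hf y).hasDerivAt.mul ((hG' y).fun_neg.cexp)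
      have e : f y * (deriv f y / f y) = deriv f y := mul_div_cancel₀ _ (h0 y)
      exact h.congr_deriv (by linear_combination (-Complex.exp (-G y)) * e)
    exact is_const_of_deriv_eq_zero (fun y => (hder y).differentiableAt)
      (fun y => (hder y).deriv) z 0
  refine ⟨fun z => G z + Complex.log (f 0 * Complex.exp (-G 0)), ?_, ?_⟩
  · intro z
    exact (hG' z).differentiableAt.add_const _
  · intro z
    rw [Complex.exp_add, Complex.exp_log (mul_ne_zero (h0 0) (Complex.exp_ne_zero _)),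
      ← hconst z, mul_comm, mul_assoc, ← Complex.exp_add]
    simp

/-- There is a solution of `cosh² ζ ∈ ℤ` close to every point. -/
lemma exists_near (w : ℂ) : ∃ ζ : ℂ, ‖ζ - w‖ < 2 ∧ ∃ n : ℤ, Complex.cosh ζ ^ 2 = n := by
  -- real part
  obtain ⟨y, hy1, n, hn⟩ : ∃ y : ℝ, |y - w.re| ≤ 1 ∧ ∃ n : ℤ, Real.cosh (2 * y) = 2 * n - 1 := by
    obtain ⟨y, hy1, n, hn⟩ : ∃ y : ℝ, |y - abs w.re| ≤ 1 ∧ ∃ n : ℤ,
        Real.cosh (2 * y) = 2 * n - 1 := by
      set x := abs w.re with hx
      have hx0 : 0 ≤ x := abs_nonneg _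
      have hcont : ContinuousOn (fun y : ℝ => (Real.cosh (2 * y) + 1) / 2) (Set.Icc x (x + 1)) := by
        fun_prop
      have hgap : (Real.cosh (2 * x) + 1) / 2 + 1 ≤ (Real.cosh (2 * (x + 1)) + 1) / 2 := by
        have e1 : Real.cosh (2 * (x + 1)) = Real.cosh (2 * x) * Real.cosh 2 +
            Real.sinh (2 * x) * Real.sinh 2 := by
          rw [← Real.cosh_add]; ring_nf
        have e2 : (0 : ℝ) ≤ Real.sinh (2 * x) := Real.sinh_nonneg_iff.2 (by linarith)
        have e3 : (0 : ℝ) ≤ Real.sinh 2 := Real.sinh_nonneg_iff.2 (by norm_num)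
        have e4 : (1 : ℝ) ≤ Real.cosh (2 * x) := Real.one_le_cosh _
        have e5 : (3 : ℝ) ≤ Real.cosh 2 := by
          have h1 : (2 : ℝ) + 1 ≤ Real.exp 2 := Real.add_one_le_exp 2
          have h2 : Real.cosh 2 = (Real.exp 2 + Real.exp (-2)) / 2 := Real.cosh_eq 2
          have h3 : (0 : ℝ) < Real.exp (-2) := Real.exp_pos _
          have h4 : (6 : ℝ) ≤ Real.exp 2 := by
            have h5 : (2.7 : ℝ) < Real.exp 1 := by
              have := Real.exp_one_gt_d9
              linarith
            have h6 : Real.exp 2 = Real.exp 1 * Real.exp 1 := by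
              rw [← Real.exp_add]; norm_num
            rw [h6]; nlinarith
          rw [h2]; linarith
        rw [e1]
        nlinarith [mul_nonneg e2 e3]
      have hIVT := intermediate_value_Icc (show x ≤ x + 1 by linarith) hcont
      have hmem : ((⌈(Real.cosh (2 * x) + 1) / 2⌉ : ℤ) : ℝ) ∈ Set.Icc
          ((Real.cosh (2 * x) + 1) / 2) ((Real.cosh (2 * (x + 1)) + 1) / 2) :=
        ⟨Int.le_ceil _, (Int.ceil_lt_add_one _).le.trans hgap⟩
      obtain ⟨y, hy, hy'⟩ := hIVT hmem
      refine ⟨y, ?_, ⌈(Real.cosh (2 * x) + 1) / 2⌉, ?_⟩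
      · rw [abs_le]; constructor <;> linarith [hy.1, hy.2]
      · have hy'' : (Real.cosh (2 * y) + 1) / 2 = (⌈(Real.cosh (2 * x) + 1) / 2⌉ : ℝ) := hy'
        linarith
    rcases abs_cases w.re with ⟨h1, _⟩ | ⟨h1, _⟩
    · rw [h1] at hy1
      exact ⟨y, hy1, n, hn⟩
    · rw [h1] at hy1
      refine ⟨-y, ?_, n, ?_⟩
      · rw [← abs_neg]; convert hy1 using 2; ring
      · rw [← hn, mul_neg, Real.cosh_neg]
  -- imaginary part
  set m : ℤ := round (w.im / (Real.pi / 2)) with hm
  have hm' : |(m : ℝ) * (Real.pi / 2) - w.im| ≤ 1 := by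
    have h1 := abs_sub_round (w.im / (Real.pi / 2))
    rw [← hm] at h1
    have hpi : 0 < Real.pi / 2 := by positivity
    have h2 : (m : ℝ) * (Real.pi / 2) - w.im = -((w.im / (Real.pi / 2) - m) * (Real.pi / 2)) := by
      field_simp
      ring
    rw [h2, abs_neg, abs_mul, abs_of_pos hpi]
    have h3 := Real.pi_le_four
    nlinarith [abs_nonneg (w.im / (Real.pi / 2) - m)]
  refine ⟨(y : ℂ) + (m : ℂ) * (Real.pi / 2) * Complex.I, ?_, ?_⟩
  · have hre : ((y : ℂ) + (m : ℂ) * (Real.pi / 2) * Complex.I - w).re = y - w.re := by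
      simp
    have him : ((y : ℂ) + (m : ℂ) * (Real.pi / 2) * Complex.I - w).im =
        m * (Real.pi / 2) - w.im := by
      simp
    rw [← sq_lt_sq₀ (norm_nonneg _) (by norm_num), Complex.sq_norm, Complex.normSq_apply, hre, him]
    have h1 : (y - w.re) * (y - w.re) ≤ 1 := by
      rw [← sq, ← sq_abs]; nlinarith [abs_nonneg (y - w.re)]
    have h2 : (m * (Real.pi / 2) - w.im) * (m * (Real.pi / 2) - w.im) ≤ 1 := by
      rw [← sq, ← sq_abs]; nlinarith [abs_nonneg (m * (Real.pi / 2) - w.im)]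
    norm_num
    linarith
  · have h1 : Complex.cosh ((y : ℂ) + (m : ℂ) * (Real.pi / 2) * Complex.I) ^ 2 =
        (Complex.cosh (2 * ((y : ℂ) + (m : ℂ) * (Real.pi / 2) * Complex.I)) + 1) / 2 := by
      rw [Complex.cosh_two_mul, Complex.cosh_sq]
      ring
    have h2 : 2 * ((y : ℂ) + (m : ℂ) * (Real.pi / 2) * Complex.I) =
        ((2 * y : ℝ) : ℂ) + ((m * Real.pi : ℝ) : ℂ) * Complex.I := by
      push_cast; ring
    have h3 : Complex.cosh (((2 * y : ℝ) : ℂ) + ((m * Real.pi : ℝ) : ℂ) * Complex.I) =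
        ((Real.cosh (2 * y) * Real.cos (m * Real.pi) : ℝ) : ℂ) := by
      rw [Complex.cosh_add, Complex.cosh_mul_I, Complex.sinh_mul_I, ← Complex.ofReal_cosh,
        ← Complex.ofReal_cos, ← Complex.ofReal_sin, Real.sin_int_mul_pi]
      simp
    rw [h1, h2, h3, hn]
    rcases Int.even_or_odd m with he | ho
    · refine ⟨n, ?_⟩
      have : Real.cos (m * Real.pi) = 1 := by
        rw [Real.cos_int_mul_pi]; exact he.neg_one_zpow
      rw [this]
      push_cast
      ring
    · refine ⟨1 - n, ?_⟩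
      have : Real.cos (m * Real.pi) = -1 := by
        rw [Real.cos_int_mul_pi]; exact ho.neg_one_zpow
      rw [this]
      push_cast
      ring

/-- The little Picard theorem for the values `0` and `1`. -/
theorem little_picard_zero_one (f : ℂ → ℂ) (hf : Differentiable ℂ f) (h0 : ∀ z, f z ≠ 0)
    (h1 : ∀ z, f z ≠ 1) : ∀ z, deriv f z = 0 := by
  obtain ⟨g, hg, hfg⟩ := exists_entire_log f hf h0
  have hpi : (2 * Real.pi * Complex.I : ℂ) ≠ 0 := Complex.two_pi_I_ne_zero
  set F : ℂ → ℂ := fun z => g z / (2 * Real.pi * Complex.I) with hF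
  have hFd : Differentiable ℂ F := hg.div_const _
  have hFint : ∀ z, ∀ n : ℤ, F z ≠ n := by
    intro z n hn
    apply h1 z
    have : g z = n * (2 * Real.pi * Complex.I) := by
      rw [← hn, hF]; field_simp
    rw [hfg z, this, Complex.exp_int_mul_two_pi_mul_I]
  obtain ⟨P, hP, hFP⟩ := exists_entire_log F hFd (fun z => by simpa using hFint z 0)
  obtain ⟨Q, hQ, hFQ⟩ := exists_entire_log (fun z => F z - 1) (hFd.sub_const 1)
    (fun z => by
      have := hFint z 1
      rw [Int.cast_one] at this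
      exact sub_ne_zero.2 this)
  set G : ℂ → ℂ := fun z => Complex.exp (P z / 2) with hG
  set H : ℂ → ℂ := fun z => Complex.exp (Q z / 2) with hH
  have hG2 : ∀ z, G z ^ 2 = F z := by
    intro z
    rw [hG, hFP, ← Complex.exp_nat_mul]
    congr 1
    push_cast; ring
  have hH2 : ∀ z, H z ^ 2 = F z - 1 := by
    intro z
    rw [hH, hFQ z, ← Complex.exp_nat_mul]
    congr 1
    push_cast; ring
  have hGH : ∀ z, (G z - H z) * (G z + H z) = 1 := by
    intro z
    linear_combination hG2 z - hH2 z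
  have hGd : Differentiable ℂ G := (hP.div_const 2).cexp
  have hHd : Differentiable ℂ H := (hQ.div_const 2).cexp
  obtain ⟨ψ, hψ, hψ'⟩ := exists_entire_log (fun z => G z - H z) (hGd.sub hHd)
    (fun z => left_ne_zero_of_mul_eq_one (hGH z))
  have hcosh : ∀ z, Complex.cosh (ψ z) = G z := by
    intro z
    have e1 : Complex.exp (ψ z) = G z - H z := (hψ' z).symm
    have e2 : Complex.exp (-ψ z) = G z + H z := by
      rw [Complex.exp_neg, e1]
      exact inv_eq_of_mul_eq_one_right (hGH z)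
    rw [Complex.cosh, e1, e2]
    ring
  have hψconst : ∀ z, deriv ψ z = 0 := by
    by_contra hne
    push Not at hne
    obtain ⟨z₀, hz₀⟩ := hne
    obtain ⟨w, hw⟩ := bloch_entire ψ hψ z₀ hz₀ 2
    obtain ⟨ζ, hζ, n, hn⟩ := exists_near w
    obtain ⟨z, hz⟩ := hw (show ζ ∈ ball w 2 by rw [mem_ball, dist_eq_norm]; exact hζ)
    apply hFint z n
    rw [← hG2, ← hcosh, hz, hn]
  have hψc : ∀ z, ψ z = ψ 0 := fun z => is_const_of_deriv_eq_zero hψ hψconst z 0
  have hFc : ∀ z, F z = F 0 := by
    intro z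
    rw [← hG2, ← hG2, ← hcosh, ← hcosh, hψc z]
  have hfc : f = fun _ => f 0 := by
    funext z
    have e1 : ∀ z, g z = F z * (2 * Real.pi * Complex.I) := by
      intro z; rw [hF]; field_simp
    rw [hfg z, hfg 0, e1 z, e1 0, hFc z]
  intro z
  rw [hfc]
  simp

/-- **The little Picard theorem**: an entire function omitting two values is constant. -/
theorem little_picard (f : ℂ → ℂ) (hf : Differentiable ℂ f) (a b : ℂ) (hab : a ≠ b)
    (ha : ∀ z, f z ≠ a) (hb : ∀ z, f z ≠ b) : ∀ z, f z = f 0 := by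
  have hba : b - a ≠ 0 := sub_ne_zero.2 hab.symm
  have h := little_picard_zero_one (fun z => (f z - a) / (b - a)) ((hf.sub_const a).div_const _)
    (fun z => div_ne_zero (sub_ne_zero.2 (ha z)) hba)
    (fun z h => by
      rw [div_eq_one_iff_eq hba] at h
      exact hb z (sub_left_inj.1 h))
  intro z
  have h2 := is_const_of_deriv_eq_zero ((hf.sub_const a).div_const (b - a)) h z 0
  rw [div_left_inj' hba] at h2
  exact sub_left_inj.1 h2

end Pool.Agent.Lib.MP_acc6f5_ag
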