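import Pool.Agent.Lib.MP_acc6f5_ag.Grading
import Pool.Agent.Lib.MP_acc6f5_ag.LittlePicard

/-!
# Exponential generating series of vector fields satisfying the Cauchy estimates
-/

open scoped Topology NNReal
open Filter Metric Set Finset

namespace Pool.Agent.Lib.MP_acc6f5_ag

/-- Growth condition for the coefficients of an exponential generating series. -/
def EG (c : ℕ → ℂ) : Prop := ∀ R : ℝ, 0 < R → ∃ C : ℝ, ∀ k, ‖c k‖ ≤ k.factorial * C / R ^ k

/-- The exponential generating function. -/
noncomputable def egf (c : ℕ → ℂ) (t : ℂ) : ℂ := ∑' k, t ^ k / k.factorial * c k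

lemma EG.nonneg {c : ℕ → ℂ} (h : EG c) {R : ℝ} (hR : 0 < R) :
    ∃ C : ℝ, 0 ≤ C ∧ ∀ k, ‖c k‖ ≤ k.factorial * C / R ^ k := by
  obtain ⟨C, hC⟩ := h R hR
  refine ⟨C, ?_, hC⟩
  have := (norm_nonneg _).trans (hC 0)
  simpa using this

lemma EG.term_le {c : ℕ → ℂ} {R C : ℝ} (hR : 0 < R) (hC : ∀ k, ‖c k‖ ≤ k.factorial * C / R ^ k)
    (t : ℂ) (k : ℕ) : ‖t ^ k / k.factorial * c k‖ ≤ C * (‖t‖ / R) ^ k := by
  have h5 : (0 : ℝ) < k.factorial := by exact_mod_cast k.factorial_pos
  rw [norm_mul, norm_div, norm_pow, Complex.norm_natCast]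
  calc ‖t‖ ^ k / k.factorial * ‖c k‖ ≤ ‖t‖ ^ k / k.factorial * (k.factorial * C / R ^ k) := by
        gcongr
        exact hC k
    _ = _ := by rw [div_pow]; field_simp

lemma EG.summable_norm {c : ℕ → ℂ} (h : EG c) (t : ℂ) :
    Summable fun k => ‖t ^ k / (k.factorial : ℂ) * c k‖ := by
  obtain ⟨C, hC0, hC⟩ := h.nonneg (show (0 : ℝ) < 2 * (‖t‖ + 1) by positivity)
  refine Summable.of_nonneg_of_le (fun _ => norm_nonneg _)
    (EG.term_le (by positivity) hC t) ?_
  apply Summable.mul_left
  apply summable_geometric_of_lt_one (by positivity)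
  rw [div_lt_one (by positivity)]
  linarith [norm_nonneg t]

lemma EG.shift {c : ℕ → ℂ} (h : EG c) : EG fun k => c (k + 1) := by
  intro R hR
  obtain ⟨C, hC0, hC⟩ := h.nonneg (show (0 : ℝ) < 2 * R by positivity)
  refine ⟨C / R, fun k => ?_⟩
  have h1 := hC (k + 1)
  have h2 : ((k + 1 : ℕ) : ℝ) ≤ 2 ^ (k + 1) := by
    exact_mod_cast (Nat.lt_two_pow_self (n := k + 1)).le
  calc ‖c (k + 1)‖ ≤ (k + 1).factorial * C / (2 * R) ^ (k + 1) := h1
    _ = ((k + 1 : ℕ) : ℝ) * (k.factorial * C) / (2 ^ (k + 1) * R ^ (k + 1)) := by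
        rw [Nat.factorial_succ, mul_pow]; push_cast; ring
    _ ≤ 2 ^ (k + 1) * (k.factorial * C) / (2 ^ (k + 1) * R ^ (k + 1)) := by
        gcongr
    _ = k.factorial * (C / R) / R ^ k := by
        field_simp
        ring

lemma egf_zero (c : ℕ → ℂ) : egf c 0 = c 0 := by
  rw [egf, tsum_eq_single 0]
  · simp
  · intro k hk
    simp [hk]

/-- The exponential generating function is entire, with derivative given by the shift. -/
lemma EG.hasDerivAt {c : ℕ → ℂ} (h : EG c) (t : ℂ) :
    HasDerivAt (egf c) (egf (fun k => c (k + 1)) t) t := by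
  set ρ : ℝ := ‖t‖ + 1 with hρ
  have hρ0 : 0 < ρ := by positivity
  obtain ⟨C, hC0, hC⟩ := h.shift.nonneg (show (0 : ℝ) < 2 * ρ by positivity)
  set g : ℕ → ℂ → ℂ := fun k z => z ^ k / k.factorial * c k with hg
  set g' : ℕ → ℂ → ℂ := fun k z => (k * z ^ (k - 1)) / k.factorial * c k with hg'
  have hg'succ : ∀ k z, g' (k + 1) z = z ^ k / k.factorial * c (k + 1) := by
    intro k z
    have h5 : (k.factorial : ℂ) ≠ 0 := by exact_mod_cast k.factorial_ne_zero
    have h6 : ((k + 1 : ℕ) : ℂ) ≠ 0 := by exact_mod_cast k.succ_ne_zero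
    simp only [hg', Nat.factorial_succ, Nat.add_sub_cancel]
    push_cast at h6 ⊢
    field_simp
  have hderiv : ∀ n y, y ∈ ball (0 : ℂ) ρ → HasDerivAt (g n) (g' n y) y := by
    intro n y _
    exact ((hasDerivAt_pow n y).div_const _).mul_const _
  set u : ℕ → ℝ := fun k => Nat.casesOn k 0 fun k => C * (1 / 2) ^ k with hu
  have hus : Summable u := by
    rw [← summable_nat_add_iff 1]
    exact (summable_geometric_of_lt_one (by norm_num) (by norm_num)).mul_left C
  have hbound : ∀ n y, y ∈ ball (0 : ℂ) ρ → ‖g' n y‖ ≤ u n := by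
    intro n y hy
    rw [mem_ball, dist_zero_right] at hy
    cases n with
    | zero => simp [hg', hu]
    | succ k =>
      rw [hg'succ]
      refine (EG.term_le (by positivity) hC y k).trans ?_
      have h1 : ‖y‖ / (2 * ρ) ≤ 1 / 2 := by
        rw [div_le_div_iff₀ (by positivity) (by norm_num)]
        linarith
      exact mul_le_mul_of_nonneg_left (pow_le_pow_left₀ (by positivity) h1 k) hC0
  have htmem : t ∈ ball (0 : ℂ) ρ := by
    rw [mem_ball, dist_zero_right, hρ]; linarith
  have hmain := hasDerivAt_tsum_of_isPreconnected hus isOpen_ball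
    (convex_ball (0 : ℂ) ρ).isPreconnected hderiv hbound (mem_ball_self hρ0)
    (h.summable_norm 0).of_norm htmem
  have heq : ∑' n, g' n t = egf (fun k => c (k + 1)) t := by
    have hs : Summable fun n => g' n t :=
      Summable.of_norm_bounded hus fun n => hbound n t htmem
    rw [hs.tsum_eq_zero_add, egf]
    have : g' 0 t = 0 := by simp [hg']
    rw [this, zero_add]
    congr 1
    funext k
    exact hg'succ k t
  rw [heq] at hmain
  exact hmain

lemma EG.add {c d : ℕ → ℂ} (hc : EG c) (hd : EG d) (t : ℂ) :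
    egf (fun k => c k + d k) t = egf c t + egf d t := by
  rw [egf, egf, egf, ← (hc.summable_norm t).of_norm.tsum_add (hd.summable_norm t).of_norm]
  congr 1
  funext k
  ring

/-- Leibniz rule for iterated derivations. -/
lemma iter_leibniz (D : Derivation ℂ L L) (a b : L) (n : ℕ) :
    (⇑D)^[n] (a * b) = ∑ ij ∈ antidiagonal n,
      (n.choose ij.1) • ((⇑D)^[ij.1] a * (⇑D)^[ij.2] b) := by
  induction n with
  | zero => simp
  | succ n ih =>
    rw [Finset.sum_antidiagonal_choose_succ_nsmul (fun i j => (⇑D)^[i] a * (⇑D)^[j] b) n,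
      Function.iterate_succ_apply', ih, map_sum, ← Finset.sum_add_distrib]
    apply Finset.sum_congr rfl
    rintro ⟨i, j⟩ hij
    have hij' : i + j = n := mem_antidiagonal.1 hij
    have hsymm : n.choose i = n.choose j := by
      rw [← hij']; exact Nat.choose_symm_add
    simp only
    rw [map_nsmul, Derivation.leibniz, smul_add, Function.iterate_succ_apply',
      Function.iterate_succ_apply', smul_eq_mul, smul_eq_mul, hsymm, mul_comm (D _)]

/-- The flow of a field satisfying the Cauchy estimates. -/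
noncomputable def Flow (D : Derivation ℂ L L) (p : Circle × Circle) (a : L) (t : ℂ) : ℂ :=
  egf (fun k => ev (tp p) ((⇑D)^[k] a)) t

variable {D : Derivation ℂ L L}

lemma SB.eg {a : L} (h : SB D a) (p : Circle × Circle) :
    EG fun k => ev (tp p) ((⇑D)^[k] a) := by
  intro R hR
  obtain ⟨C, hC⟩ := h R hR
  exact ⟨C, fun k => hC k p⟩

lemma Flow_zero (p : Circle × Circle) (a : L) : Flow D p a 0 = ev (tp p) a := by
  rw [Flow, egf_zero]; rfl

lemma Flow_hasDerivAt (h : ∀ a, SB D a) (p : Circle × Circle) (a : L) (t : ℂ) :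
    HasDerivAt (Flow D p a) (Flow D p (D a) t) t := by
  have := ((h a).eg p).hasDerivAt t
  exact this

lemma Flow_add (h : ∀ a, SB D a) (p : Circle × Circle) (a b : L) (t : ℂ) :
    Flow D p (a + b) t = Flow D p a t + Flow D p b t := by
  rw [Flow, Flow, Flow, ← ((h a).eg p).add ((h b).eg p)]
  congr 1
  funext k
  rw [iterate_map_add, map_add]

lemma Flow_mul (h : ∀ a, SB D a) (p : Circle × Circle) (a b : L) (t : ℂ) :
    Flow D p (a * b) t = Flow D p a t * Flow D p b t := by
  rw [Flow, Flow, Flow, egf, egf, egf,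
    tsum_mul_tsum_eq_tsum_sum_antidiagonal_of_summable_norm (((h a).eg p).summable_norm t)
      (((h b).eg p).summable_norm t)]
  congr 1
  funext n
  rw [iter_leibniz, map_sum, Finset.mul_sum]
  apply Finset.sum_congr rfl
  rintro ⟨i, j⟩ hij
  have hij' : i + j = n := mem_antidiagonal.1 hij
  simp only
  rw [map_nsmul, map_mul, nsmul_eq_mul]
  have h1 : (n.factorial : ℂ) = n.choose i * i.factorial * j.factorial := by
    rw [← Nat.choose_mul_factorial_mul_factorial (show i ≤ n by omega),
      show n - i = j by omega]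
    push_cast
    ring
  have e1 : (i.factorial : ℂ) ≠ 0 := by exact_mod_cast i.factorial_ne_zero
  have e2 : (j.factorial : ℂ) ≠ 0 := by exact_mod_cast j.factorial_ne_zero
  have e3 : (n.choose i : ℂ) ≠ 0 := by
    exact_mod_cast (Nat.choose_pos (by omega)).ne'
  have ht : t ^ n = t ^ i * t ^ j := by rw [← hij', pow_add]
  rw [h1, ht]
  field_simp

lemma Flow_const (p : Circle × Circle) (c : ℂ) (t : ℂ) :
    Flow D p (algebraMap ℂ L c) t = c := by
  rw [Flow, egf, tsum_eq_single 0]
  · rw [Function.iterate_zero, id, AlgHom.commutes]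
    simp
  · intro k hk
    obtain ⟨j, rfl⟩ := Nat.exists_eq_succ_of_ne_zero hk
    rw [Function.iterate_succ_apply, Derivation.map_algebraMap, iterate_map_zero]
    simp

/-- **Application of the little Picard theorem.** A field satisfying the Cauchy estimates cannot
have an invertible regular function `y` with `D y = (y - α) b`, `α ≠ 0`, unless `D y = 0`. -/
theorem picard_obstruction (h : ∀ a, SB D a) (m : ℤ × ℤ) (α : ℂ) (hα : α ≠ 0) (b : L)
    (hb : D (mon m) = (mon m - algebraMap ℂ L α) * b) : D (mon m) = 0 := by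
  apply eq_zero_of_ev
  intro p
  by_contra hne
  set F := Flow D p (mon m) with hF
  have hFd : Differentiable ℂ F := fun t => (Flow_hasDerivAt h p (mon m) t).differentiableAt
  have hF0 : ∀ t, F t ≠ 0 := by
    intro t h0
    have h1 := Flow_mul h p (mon m) (mon (-m)) t
    rw [mon_mul_neg, ← map_one (algebraMap ℂ L), Flow_const, ← hF, h0, zero_mul] at h1
    exact one_ne_zero h1
  -- the function `F - α` satisfies a linear equation
  have hFa : ∀ t, HasDerivAt (fun s => F s - α) ((F t - α) * Flow D p b t) t := by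
    intro t
    have h1 := (Flow_hasDerivAt h p (mon m) t).sub_const α
    rw [hb, Flow_mul h] at h1
    have h2 : Flow D p (mon m - algebraMap ℂ L α) t = F t - α := by
      have := Flow_add h p (mon m - algebraMap ℂ L α) (algebraMap ℂ L α) t
      rw [sub_add_cancel, Flow_const] at this
      rw [hF, this]; ring
    rw [h2] at h1
    exact h1
  have hBd : Differentiable ℂ (Flow D p b) := fun t => (Flow_hasDerivAt h p b t).differentiableAt
  obtain ⟨B, hB⟩ := hBd.isExactOn_univ
  have hB' : ∀ t, HasDerivAt B (Flow D p b t) t := fun t => hB t (Set.mem_univ t)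
  have hconst : ∀ t, (F t - α) * Complex.exp (-B t) = (F 0 - α) * Complex.exp (-B 0) := by
    intro t
    have hder : ∀ t, HasDerivAt (fun t => (F t - α) * Complex.exp (-B t)) 0 t := by
      intro t
      have h1 := (hFa t).mul ((hB' t).fun_neg.cexp)
      exact h1.congr_deriv (by ring)
    exact is_const_of_deriv_eq_zero (fun y => (hder y).differentiableAt)
      (fun y => (hder y).deriv) t 0
  have hF0a : F 0 - α ≠ 0 := by
    intro h0
    apply hne
    rw [hb, map_mul, map_sub, AlgHom.commutes]
    rw [hF, Flow_zero] at h0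
    have : ev (tp p) (mon m) - (algebraMap ℂ ℂ) α = 0 := h0
    rw [this, zero_mul]
  have hFα : ∀ t, F t ≠ α := by
    intro t ht
    have h1 := hconst t
    rw [ht, sub_self, zero_mul] at h1
    exact mul_ne_zero hF0a (Complex.exp_ne_zero _) h1.symm
  have hFc := little_picard F hFd 0 α hα.symm hF0 hFα
  have h1 : deriv F 0 = 0 := by
    have : F = fun _ => F 0 := funext hFc
    rw [this]; simp
  have h2 := (Flow_hasDerivAt h p (mon m) 0).deriv
  rw [← hF, h1, Flow_zero] at h2
  exact hne h2.symm

end Pool.Agent.Lib.MP_acc6f5_ag
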