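import Pool.Agent.Lib.MP_acc6f5_ag.Cauchy
import Pool.Agent.Lib.MP_acc6f5_ag.Divergence

/-!
# Gradings of the Laurent polynomials and initial parts of vector fields
-/

open scoped Topology NNReal
open Filter Metric Set

namespace Pool.Agent.Lib.MP_acc6f5_ag

/-- The part of weight `j`. -/
noncomputable def gp (ℓ : ℤ × ℤ →+ ℤ) (j : ℤ) : L →ₗ[ℂ] L := scaleLin fun m => if ℓ m = j then 1 else 0

lemma gp_coeff (ℓ : ℤ × ℤ →+ ℤ) (j : ℤ) (h : L) (m : ℤ × ℤ) :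
    (gp ℓ j h).coeff m = if ℓ m = j then h.coeff m else 0 := by
  rw [gp, scaleLin_coeff]
  split_ifs <;> simp

lemma gp_mon (ℓ : ℤ × ℤ →+ ℤ) (j : ℤ) (m : ℤ × ℤ) :
    gp ℓ j (mon m) = if ℓ m = j then mon m else 0 := by
  rw [gp, scaleLin_mon]
  split_ifs <;> simp

/-- Rotation of the torus with weights. -/
noncomputable def rot (ℓ : ℤ × ℤ →+ ℤ) (θ : ℝ) (p : Circle × Circle) : Circle × Circle :=
  (Circle.exp (θ * ℓ (1, 0)) * p.1, Circle.exp (θ * ℓ (0, 1)) * p.2)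

lemma ell_eq (ℓ : ℤ × ℤ →+ ℤ) (m : ℤ × ℤ) : ℓ m = m.1 * ℓ (1, 0) + m.2 * ℓ (0, 1) := by
  have : m = m.1 • ((1 : ℤ), (0 : ℤ)) + m.2 • ((0 : ℤ), (1 : ℤ)) := by simp
  conv_lhs => rw [this]
  rw [map_add, map_zsmul, map_zsmul, smul_eq_mul, smul_eq_mul]

lemma ev_tp_mon (p : Circle × Circle) (m : ℤ × ℤ) :
    ev (tp p) (mon m) = (p.1 : ℂ) ^ m.1 * (p.2 : ℂ) ^ m.2 := by
  rw [ev_mon_eq]
  simp [tp]

lemma norm_ev_tp_mon (p : Circle × Circle) (m : ℤ × ℤ) : ‖ev (tp p) (mon m)‖ = 1 := by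
  rw [ev_tp_mon]
  simp

lemma ev_rot (ℓ : ℤ × ℤ →+ ℤ) (θ : ℝ) (p : Circle × Circle) (m : ℤ × ℤ) :
    ev (tp (rot ℓ θ p)) (mon m) = Complex.exp (θ * ℓ m * Complex.I) * ev (tp p) (mon m) := by
  rw [ev_tp_mon, ev_tp_mon, rot]
  simp only [Circle.coe_mul, Circle.coe_exp, mul_zpow, ← Complex.exp_int_mul]
  rw [mul_mul_mul_comm, ← Complex.exp_add]
  congr 2
  rw [ell_eq ℓ m]
  push_cast
  ring

lemma continuous_ev_tp (h : L) : Continuous fun p : Circle × Circle => ev (tp p) h := by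
  obtain ⟨H, hH, hH'⟩ := exists_poly h
  have : (fun p : Circle × Circle => ev (tp p) h) = fun p => H (coords (tp p)) := by
    funext p; rw [hH']
  rw [this]
  exact hH.continuous.comp continuous_coords_tp

lemma continuous_rot (ℓ : ℤ × ℤ →+ ℤ) (p : Circle × Circle) :
    Continuous fun θ : ℝ => rot ℓ θ p := by
  unfold rot
  fun_prop

lemma continuous_ev_rot (ℓ : ℤ × ℤ →+ ℤ) (p : Circle × Circle) (h : L) :
    Continuous fun θ : ℝ => ev (tp (rot ℓ θ p)) h :=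
  (continuous_ev_tp h).comp (continuous_rot ℓ p)

lemma integral_exp_int (n : ℤ) : ∫ θ in (0 : ℝ)..(2 * Real.pi), Complex.exp (θ * n * Complex.I) =
    if n = 0 then 2 * Real.pi else 0 := by
  split_ifs with h
  · subst h
    simp
  · have hn : ((n : ℂ) * Complex.I) ≠ 0 :=
      mul_ne_zero (by exact_mod_cast h) Complex.I_ne_zero
    have h1 : ∀ θ : ℝ, Complex.exp (θ * n * Complex.I) =
        Complex.exp ((n * Complex.I) * θ) := by
      intro θ; congr 1; ring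
    simp_rw [h1]
    rw [integral_exp_mul_complex hn]
    have h2 : Complex.exp ((n : ℂ) * Complex.I * ((2 * Real.pi : ℝ) : ℂ)) = 1 := by
      rw [show (n : ℂ) * Complex.I * ((2 * Real.pi : ℝ) : ℂ) = n * (2 * Real.pi * Complex.I) by
        push_cast; ring]
      exact Complex.exp_int_mul_two_pi_mul_I n
    rw [h2]
    simp

lemma ev_gp (ℓ : ℤ × ℤ →+ ℤ) (j : ℤ) (p : Circle × Circle) (h : L) :
    (2 * Real.pi : ℂ) * ev (tp p) (gp ℓ j h) =
      ∫ θ in (0 : ℝ)..(2 * Real.pi), Complex.exp (θ * (-j : ℤ) * Complex.I) *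
        ev (tp (rot ℓ θ p)) h := by
  refine L_induction (P := fun h => (2 * Real.pi : ℂ) * ev (tp p) (gp ℓ j h) =
      ∫ θ in (0 : ℝ)..(2 * Real.pi), Complex.exp (θ * (-j : ℤ) * Complex.I) *
        ev (tp (rot ℓ θ p)) h) h ?_ ?_ ?_
  · simp
  · intro f g hf hg
    rw [map_add, map_add, mul_add, hf, hg, ← intervalIntegral.integral_add]
    · congr 1
      funext θ
      rw [map_add, mul_add]
    · exact ((by fun_prop : Continuous fun θ : ℝ => Complex.exp (θ * (-j : ℤ) * Complex.I)).mul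
        (continuous_ev_rot ℓ p f)).intervalIntegrable _ _
    · exact ((by fun_prop : Continuous fun θ : ℝ => Complex.exp (θ * (-j : ℤ) * Complex.I)).mul
        (continuous_ev_rot ℓ p g)).intervalIntegrable _ _
  · intro c m
    have h1 : ∀ θ : ℝ, Complex.exp (θ * (-j : ℤ) * Complex.I) *
        ev (tp (rot ℓ θ p)) (c • mon m) =
        Complex.exp (θ * (ℓ m - j : ℤ) * Complex.I) * (c * ev (tp p) (mon m)) := by
      intro θ
      rw [map_smul, ev_rot, smul_eq_mul]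
      have : Complex.exp (θ * (ℓ m - j : ℤ) * Complex.I) =
          Complex.exp (θ * (-j : ℤ) * Complex.I) * Complex.exp (θ * ℓ m * Complex.I) := by
        rw [← Complex.exp_add]; congr 1; push_cast; ring
      rw [this]; ring
    simp_rw [h1]
    rw [intervalIntegral.integral_mul_const, integral_exp_int, map_smul, gp_mon]
    by_cases h2 : ℓ m = j
    · rw [if_pos h2, if_pos (by omega), map_smul, smul_eq_mul]
      push_cast
      rfl
    · rw [if_neg h2, if_neg (by omega)]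
      simp

/-- The weight components are bounded by the sup norm on the torus. -/
lemma norm_ev_gp (ℓ : ℤ × ℤ →+ ℤ) (j : ℤ) (h : L) (C : ℝ)
    (hC : ∀ p : Circle × Circle, ‖ev (tp p) h‖ ≤ C) (p : Circle × Circle) :
    ‖ev (tp p) (gp ℓ j h)‖ ≤ C := by
  have h1 := ev_gp ℓ j p h
  have hpi : 0 < 2 * Real.pi := by positivity
  have h2 : ‖∫ θ in (0 : ℝ)..(2 * Real.pi), Complex.exp (θ * (-j : ℤ) * Complex.I) *
        ev (tp (rot ℓ θ p)) h‖ ≤ C * |2 * Real.pi - 0| := by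
    apply intervalIntegral.norm_integral_le_of_norm_le_const
    intro θ _
    rw [norm_mul]
    have : ‖Complex.exp (θ * (-j : ℤ) * Complex.I)‖ = 1 := by
      rw [show ((θ : ℂ) * (-j : ℤ) * Complex.I) = ((θ * (-j : ℤ) : ℝ) : ℂ) * Complex.I by
        push_cast; ring]
      exact Complex.norm_exp_ofReal_mul_I _
    rw [this, one_mul]
    exact hC _
  rw [← h1, norm_mul, sub_zero, abs_of_pos hpi] at h2
  have h3 : ‖(2 * Real.pi : ℂ)‖ = 2 * Real.pi := by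
    rw [show (2 * Real.pi : ℂ) = ((2 * Real.pi : ℝ) : ℂ) by push_cast; ring, Complex.norm_real,
      Real.norm_eq_abs, abs_of_pos hpi]
  rw [h3, mul_comm] at h2
  exact le_of_mul_le_mul_right h2 hpi

/-- Elements all of whose exponents have weight at most `n`. -/
def Fil (ℓ : ℤ × ℤ →+ ℤ) (n : ℤ) : Submodule ℂ L where
  carrier := {h | ∀ m, h.coeff m ≠ 0 → ℓ m ≤ n}
  add_mem' := by
    intro f g hf hg m hm
    by_contra hlt
    have h1 : f.coeff m = 0 := by by_contra h; exact hlt (hf m h)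
    have h2 : g.coeff m = 0 := by by_contra h; exact hlt (hg m h)
    apply hm
    simp [h1, h2]
  zero_mem' := by intro m hm; simp at hm
  smul_mem' := by
    intro c f hf m hm
    apply hf m
    intro h
    apply hm
    simp [h]

lemma mem_Fil {ℓ : ℤ × ℤ →+ ℤ} {n : ℤ} {h : L} : h ∈ Fil ℓ n ↔ ∀ m, h.coeff m ≠ 0 → ℓ m ≤ n :=
  Iff.rfl

lemma sum_mon (h : L) : h = ∑ m ∈ h.coeff.support, h.coeff m • mon m := by
  conv_lhs => rw [← AddMonoidAlgebra.sum_coeff_single h]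
  rw [Finsupp.sum]
  apply Finset.sum_congr rfl
  intro m _
  simp [mon]

lemma Fil_induction {P : L → Prop} (ℓ : ℤ × ℤ →+ ℤ) (n : ℤ) (f : L) (hf : f ∈ Fil ℓ n) (h0 : P 0)
    (hadd : ∀ f g, P f → P g → P (f + g)) (hmon : ∀ (c : ℂ) (m : ℤ × ℤ), ℓ m ≤ n → P (c • mon m)) :
    P f := by
  rw [sum_mon f]
  apply Finset.sum_induction _ P hadd h0
  intro m hm
  exact hmon _ m (hf m (by simpa using hm))

lemma mon_mem_Fil {ℓ : ℤ × ℤ →+ ℤ} {n : ℤ} {m : ℤ × ℤ} (h : ℓ m ≤ n) : mon m ∈ Fil ℓ n := by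
  intro k hk
  rw [mon_coeff] at hk
  split_ifs at hk with h1
  · rw [← h1]; exact h
  · exact absurd rfl hk

lemma Fil_mul {ℓ : ℤ × ℤ →+ ℤ} {m n : ℤ} {f g : L} (hf : f ∈ Fil ℓ m) (hg : g ∈ Fil ℓ n) :
    f * g ∈ Fil ℓ (m + n) ∧ gp ℓ (m + n) (f * g) = gp ℓ m f * gp ℓ n g := by
  refine Fil_induction (P := fun f => f * g ∈ Fil ℓ (m + n) ∧
    gp ℓ (m + n) (f * g) = gp ℓ m f * gp ℓ n g) ℓ m f hf ?_ ?_ ?_
  · simp
  · rintro f₁ f₂ ⟨h1, h1'⟩ ⟨h2, h2'⟩
    rw [add_mul, map_add, map_add, h1', h2', add_mul]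
    exact ⟨add_mem h1 h2, rfl⟩
  · intro c u hu
    refine Fil_induction (P := fun g => (c • mon u) * g ∈ Fil ℓ (m + n) ∧
      gp ℓ (m + n) ((c • mon u) * g) = gp ℓ m (c • mon u) * gp ℓ n g) ℓ n g hg ?_ ?_ ?_
    · simp
    · rintro f₁ f₂ ⟨h1, h1'⟩ ⟨h2, h2'⟩
      rw [mul_add, map_add, map_add, h1', h2', mul_add]
      exact ⟨add_mem h1 h2, rfl⟩
    · intro d v hv
      rw [smul_mul_smul_comm, ← mon_add]
      refine ⟨Submodule.smul_mem _ _ (mon_mem_Fil (by rw [map_add]; omega)), ?_⟩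
      rw [map_smul, map_smul, map_smul, gp_mon, gp_mon, gp_mon, smul_mul_smul_comm, map_add]
      by_cases h1 : ℓ u = m
      · by_cases h2 : ℓ v = n
        · rw [if_pos h1, if_pos h2, if_pos (by omega), ← mon_add]
        · rw [if_pos h1, if_neg h2, if_neg (by omega), mul_zero]
      · rw [if_neg h1, if_neg (by omega), zero_mul]

lemma euler_Fil {ℓ : ℤ × ℤ →+ ℤ} {n : ℤ} {h : L} (c : ℤ × ℤ →+ ℂ) (hh : h ∈ Fil ℓ n) :
    euler c h ∈ Fil ℓ n := by
  intro m hm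
  rw [euler_coeff] at hm
  exact hh m (right_ne_zero_of_mul hm)

lemma euler_gp (ℓ : ℤ × ℤ →+ ℤ) (n : ℤ) (h : L) (c : ℤ × ℤ →+ ℂ) :
    gp ℓ n (euler c h) = euler c (gp ℓ n h) := by
  ext m
  simp only [gp_coeff, euler_coeff]
  split_ifs <;> simp

/-- The part of weight `m` of a derivation. -/
noncomputable def top (ℓ : ℤ × ℤ →+ ℤ) (m : ℤ) (D : Derivation ℂ L L) : Derivation ℂ L L :=
  gp ℓ m (fD D) • θ₁ + gp ℓ m (gD D) • θ₂

lemma D_top {ℓ : ℤ × ℤ →+ ℤ} {m n : ℤ} {D : Derivation ℂ L L} (hf : fD D ∈ Fil ℓ m)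
    (hg : gD D ∈ Fil ℓ m) {h : L} (hh : h ∈ Fil ℓ n) :
    D h ∈ Fil ℓ (m + n) ∧ gp ℓ (m + n) (D h) = top ℓ m D (gp ℓ n h) := by
  rw [D_apply D h]
  have h1 := Fil_mul hf (euler_Fil c1 hh)
  have h2 := Fil_mul hg (euler_Fil c2 hh)
  refine ⟨add_mem h1.1 h2.1, ?_⟩
  rw [map_add]
  have e1 : gp ℓ (m + n) (fD D * θ₁ h) = gp ℓ m (fD D) * θ₁ (gp ℓ n h) := by
    rw [θ₁, h1.2, euler_gp]
  have e2 : gp ℓ (m + n) (gD D * θ₂ h) = gp ℓ m (gD D) * θ₂ (gp ℓ n h) := by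
    rw [θ₂, h2.2, euler_gp]
  rw [e1, e2]
  simp [top]

lemma iter_top {ℓ : ℤ × ℤ →+ ℤ} {m n : ℤ} {D : Derivation ℂ L L} (hf : fD D ∈ Fil ℓ m)
    (hg : gD D ∈ Fil ℓ m) {h : L} (hh : h ∈ Fil ℓ n) (k : ℕ) :
    (⇑D)^[k] h ∈ Fil ℓ (k * m + n) ∧
      gp ℓ (k * m + n) ((⇑D)^[k] h) = (⇑(top ℓ m D))^[k] (gp ℓ n h) := by
  induction k with
  | zero => simpa using hh
  | succ k ih =>
    rw [Function.iterate_succ_apply', Function.iterate_succ_apply']
    have := D_top hf hg ih.1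
    have e : ((k + 1 : ℕ) : ℤ) * m + n = m + (k * m + n) := by push_cast; ring
    rw [e]
    refine ⟨this.1, ?_⟩
    rw [this.2, ih.2]

lemma SB_add {D : Derivation ℂ L L} {a b : L} (ha : SB D a) (hb : SB D b) : SB D (a + b) := by
  intro R hR
  obtain ⟨C₁, h1⟩ := ha R hR
  obtain ⟨C₂, h2⟩ := hb R hR
  refine ⟨C₁ + C₂, fun k p => ?_⟩
  rw [iterate_map_add, map_add]
  calc _ ≤ _ := norm_add_le _ _
    _ ≤ _ := add_le_add (h1 k p) (h2 k p)
    _ = _ := by ring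

lemma iter_smul (D : Derivation ℂ L L) (c : ℂ) (a : L) (k : ℕ) :
    (⇑D)^[k] (c • a) = c • (⇑D)^[k] a := by
  induction k with
  | zero => rfl
  | succ k ih => rw [Function.iterate_succ_apply', Function.iterate_succ_apply', ih,
      Derivation.map_smul]

lemma SB_smul {D : Derivation ℂ L L} {a : L} (c : ℂ) (ha : SB D a) : SB D (c • a) := by
  intro R hR
  obtain ⟨C₁, h1⟩ := ha R hR
  refine ⟨‖c‖ * C₁, fun k p => ?_⟩
  rw [iter_smul, map_smul, norm_smul]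
  calc _ ≤ ‖c‖ * (k.factorial * C₁ / R ^ k) := mul_le_mul_of_nonneg_left (h1 k p) (norm_nonneg _)
    _ = _ := by ring

lemma SB_zero (D : Derivation ℂ L L) : SB D 0 := by
  have := SB_smul (D := D) (a := 0) 0
  intro R hR
  refine ⟨0, fun k p => ?_⟩
  rw [iterate_map_zero]
  simp

lemma SB_of_mon {D : Derivation ℂ L L} (h : ∀ m, SB D (mon m)) (a : L) : SB D a :=
  L_induction (P := fun a => SB D a) a (SB_zero D) (fun _ _ => SB_add) fun c m => SB_smul c (h m)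

/-- The estimates pass to initial parts. -/
lemma SB_top {ℓ : ℤ × ℤ →+ ℤ} {m : ℤ} {D : Derivation ℂ L L} (hf : fD D ∈ Fil ℓ m)
    (hg : gD D ∈ Fil ℓ m) (u : ℤ × ℤ) (h : SB D (mon u)) : SB (top ℓ m D) (mon u) := by
  intro R hR
  obtain ⟨C, hC⟩ := h R hR
  refine ⟨C, fun k p => ?_⟩
  have h1 := (iter_top hf hg (mon_mem_Fil (le_refl (ℓ u))) k).2
  rw [gp_mon, if_pos rfl] at h1
  rw [← h1]
  exact norm_ev_gp ℓ _ _ _ (fun p => hC k p) p

/-- Monomial fields with the estimates are divergence free. -/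
lemma vertex (v : ℤ × ℤ) (α β : ℂ) (h : SB ((α • mon v) • θ₁ + (β • mon v) • θ₂) (mon v)) :
    v.1 * α + v.2 * β = 0 := by
  set D := (α • mon v) • θ₁ + (β • mon v) • θ₂ with hD
  have h1 : ∀ u : ℤ × ℤ, D (mon u) = (u.1 * α + u.2 * β) • mon (u + v) := by
    intro u
    rw [D_mon, hD, fD_mk, gD_mk, smul_smul, smul_smul, ← add_smul, mul_smul_comm, ← mon_add]
  set c := v.1 * α + v.2 * β with hc
  have h2 : ∀ k : ℕ, (⇑D)^[k] (mon v) = (k.factorial * c ^ k) • mon ((k + 1 : ℕ) • v) := by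
    intro k
    induction k with
    | zero => simp
    | succ k ih =>
      rw [Function.iterate_succ_apply', ih, Derivation.map_smul, h1, smul_smul,
        ← succ_nsmul]
      congr 1
      have e1 : ((k + 1 : ℕ) • v).1 = ((k + 1 : ℕ) : ℤ) * v.1 := by simp
      have e2 : ((k + 1 : ℕ) • v).2 = ((k + 1 : ℕ) : ℤ) * v.2 := by simp
      rw [Nat.factorial_succ, e1, e2]
      push_cast
      rw [hc]
      ring
  by_contra hne
  have hpos : 0 < ‖c‖ := norm_pos_iff.2 hne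
  obtain ⟨C, hC⟩ := h (2 / ‖c‖) (by positivity)
  have h3 : ∀ k : ℕ, (2 : ℝ) ^ k ≤ C := by
    intro k
    have h4 := hC k (1, 1)
    rw [h2 k, map_smul, norm_smul, norm_ev_tp_mon, mul_one, norm_mul, norm_pow,
      Complex.norm_natCast, div_pow, le_div_iff₀ (by positivity)] at h4
    have h5 : (0 : ℝ) < k.factorial := by exact_mod_cast k.factorial_pos
    have h6 : (k.factorial : ℝ) * ‖c‖ ^ k * (2 ^ k / ‖c‖ ^ k) = k.factorial * 2 ^ k := by
      field_simp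
    rw [h6] at h4
    exact le_of_mul_le_mul_left h4 h5
  obtain ⟨k, hk⟩ := pow_unbounded_of_one_lt C (one_lt_two)
  exact absurd (h3 k) (not_le.2 hk)

/-- The torus is Zariski dense: an element vanishing on it is zero. -/
lemma eq_zero_of_ev (h : L) (hh : ∀ p : Circle × Circle, ev (tp p) h = 0) : h = 0 := by
  ext m
  have h1 : ∀ p : Circle × Circle, ‖ev (tp p) (gp (AddMonoidHom.fst ℤ ℤ) m.1 h)‖ ≤ 0 :=
    norm_ev_gp _ _ _ _ fun p => by rw [hh]; simp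
  have h2 : ‖ev (tp (1, 1)) (gp (AddMonoidHom.snd ℤ ℤ) m.2 (gp (AddMonoidHom.fst ℤ ℤ) m.1 h))‖ ≤ 0 :=
    norm_ev_gp _ _ _ _ h1 _
  have h3 : gp (AddMonoidHom.snd ℤ ℤ) m.2 (gp (AddMonoidHom.fst ℤ ℤ) m.1 h) =
      h.coeff m • mon m := by
    ext n
    rw [gp_coeff, gp_coeff, AddMonoidAlgebra.coeff_smul_apply, mon_coeff]
    simp only [AddMonoidHom.coe_snd, AddMonoidHom.coe_fst]
    by_cases e2 : n.2 = m.2
    · by_cases e1 : n.1 = m.1
      · have : m = n := Prod.ext e1.symm e2.symm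
        rw [if_pos e2, if_pos e1, if_pos this, this]
        simp
      · rw [if_pos e2, if_neg e1, if_neg (fun e => e1 (by rw [e]))]
        simp
    · rw [if_neg e2, if_neg (fun e => e2 (by rw [e]))]
      simp
  rw [h3, map_smul, norm_smul, norm_ev_tp_mon, mul_one] at h2
  simpa using h2

end Pool.Agent.Lib.MP_acc6f5_ag
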