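import Mathlib

/-!
# Uniform boundedness of entire integral curves over a compact set of initial values
-/

open scoped Topology NNReal
open Filter Metric Set

namespace Pool.Agent.Lib.MP_acc6f5_ag

variable {E : Type*} [NormedAddCommGroup E] [NormedSpace ℂ E]

lemma local_bound (V : E → E) (hV : ∀ r : ℝ, ∃ K : ℝ≥0, LipschitzOnWith K V (closedBall 0 r))
    (γ : ℂ → E) (hγ : ∀ t, HasDerivAt γ (V (γ t)) t) (R : ℝ) :
    ∃ δ > 0, ∃ M, ∀ η : ℂ → E, (∀ t, HasDerivAt η (V (η t)) t) → dist (η 0) (γ 0) < δ →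
      ∀ t : ℂ, ‖t‖ ≤ R → ‖η t‖ ≤ M := by
  have hγc : Continuous γ := continuous_iff_continuousAt.2 fun t => (hγ t).continuousAt
  obtain ⟨M₀, hM₀⟩ := (isCompact_closedBall (0 : ℂ) R).exists_bound_of_continuousOn
    hγc.continuousOn
  obtain ⟨K, hK⟩ := hV (M₀ + 1)
  refine ⟨Real.exp (-(K * |R|)), Real.exp_pos _, M₀ + 1, ?_⟩
  intro η hη h0 t ht
  have hηc : Continuous η := continuous_iff_continuousAt.2 fun t => (hη t).continuousAt
  -- curves along the segment
  have hder : ∀ (ξ : ℂ → E), (∀ t, HasDerivAt ξ (V (ξ t)) t) → ∀ s : ℝ,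
      HasDerivAt (fun s : ℝ => ξ ((s : ℂ) * t)) (t • V (ξ ((s : ℂ) * t))) s := by
    intro ξ hξ s
    have h1 : HasDerivAt (fun s : ℝ => (s : ℂ) * t) t s := by
      simpa using (Complex.ofRealCLM.hasDerivAt (x := s)).mul_const t
    exact HasDerivAt.scomp s (hξ ((s : ℂ) * t)) h1
  have hγs : ∀ s ∈ Icc (0 : ℝ) 1, ‖γ ((s : ℂ) * t)‖ ≤ M₀ := by
    intro s hs
    apply hM₀
    rw [mem_closedBall, dist_zero_right, norm_mul, Complex.norm_real, Real.norm_eq_abs,
      abs_of_nonneg hs.1]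
    calc s * ‖t‖ ≤ 1 * ‖t‖ := by gcongr; exact hs.2
      _ ≤ R := by rw [one_mul]; exact ht
  have hfc : Continuous (fun s : ℝ => η ((s : ℂ) * t)) := by fun_prop
  have hgc : Continuous (fun s : ℝ => γ ((s : ℂ) * t)) := by fun_prop
  have key : ∀ s ∈ Icc (0 : ℝ) 1, dist (η ((s : ℂ) * t)) (γ ((s : ℂ) * t)) < 1 := by
    by_contra hcon
    push Not at hcon
    obtain ⟨s₁, hs₁, hs₁'⟩ := hcon
    set B : Set ℝ := Icc (0 : ℝ) 1 ∩ {s | 1 ≤ dist (η ((s : ℂ) * t)) (γ ((s : ℂ) * t))} with hB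
    have hBc : IsCompact B := isCompact_Icc.inter_right
      (isClosed_le continuous_const (hfc.dist hgc))
    have hBne : B.Nonempty := ⟨s₁, hs₁, hs₁'⟩
    have hmem := hBc.sInf_mem hBne
    set s := sInf B with hs
    have hlt : ∀ r ∈ Ico (0 : ℝ) s, dist (η ((r : ℂ) * t)) (γ ((r : ℂ) * t)) < 1 := by
      intro r hr
      by_contra hge
      have hrB : r ∈ B := ⟨⟨hr.1, hr.2.le.trans hmem.1.2⟩, not_lt.1 hge⟩
      exact absurd (csInf_le hBc.bddBelow hrB) (not_le.2 hr.2)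
    have hLip : ∀ r ∈ Ico (0 : ℝ) s, LipschitzOnWith (‖t‖₊ * K) (fun y => t • V y)
        (closedBall 0 (M₀ + 1)) := by
      intro r _
      exact (lipschitzWith_smul t).comp_lipschitzOnWith hK
    have hmem1 : ∀ r ∈ Ico (0 : ℝ) s, γ ((r : ℂ) * t) ∈ closedBall (0 : E) (M₀ + 1) := by
      intro r hr
      rw [mem_closedBall, dist_zero_right]
      linarith [hγs r ⟨hr.1, hr.2.le.trans hmem.1.2⟩]
    have hmem2 : ∀ r ∈ Ico (0 : ℝ) s, η ((r : ℂ) * t) ∈ closedBall (0 : E) (M₀ + 1) := by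
      intro r hr
      rw [mem_closedBall, dist_zero_right]
      have h1 := hγs r ⟨hr.1, hr.2.le.trans hmem.1.2⟩
      have h2 := hlt r hr
      rw [dist_eq_norm] at h2
      calc ‖η ((r : ℂ) * t)‖ = ‖γ ((r : ℂ) * t) + (η ((r : ℂ) * t) - γ ((r : ℂ) * t))‖ := by
            congr 1; abel
        _ ≤ _ := norm_add_le _ _
        _ ≤ M₀ + 1 := by linarith
    have hG := dist_le_of_trajectories_ODE_of_mem (v := fun _ y => t • V y)
      (s := fun _ => closedBall (0 : E) (M₀ + 1)) (a := 0) (b := s)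
      (f := fun s : ℝ => η ((s : ℂ) * t)) (g := fun s : ℝ => γ ((s : ℂ) * t))
      (K := ‖t‖₊ * K) (δ := dist (η 0) (γ 0)) hLip hfc.continuousOn
      (fun r _ => (hder η hη r).hasDerivWithinAt) hmem2 hgc.continuousOn
      (fun r _ => (hder γ hγ r).hasDerivWithinAt) hmem1 (by simp) s ⟨hmem.1.1, le_rfl⟩
    have h1 : dist (η ((s : ℂ) * t)) (γ ((s : ℂ) * t)) < 1 := by
      refine lt_of_le_of_lt hG ?_
      calc dist (η 0) (γ 0) * Real.exp (((‖t‖₊ * K : ℝ≥0) : ℝ) * (s - 0))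
          ≤ dist (η 0) (γ 0) * Real.exp (K * |R|) := by
            apply mul_le_mul_of_nonneg_left (Real.exp_le_exp.2 ?_) dist_nonneg
            push_cast
            rw [sub_zero]
            have e1 : ‖t‖ ≤ |R| := ht.trans (le_abs_self R)
            have e2 : s ≤ 1 := hmem.1.2
            have e3 : 0 ≤ s := hmem.1.1
            have e4 : (0 : ℝ) ≤ K := K.2
            have e5 : 0 ≤ ‖t‖ := norm_nonneg t
            calc ‖t‖ * K * s ≤ |R| * K * 1 := by gcongr
              _ = K * |R| := by ring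
        _ < Real.exp (-(K * |R|)) * Real.exp (K * |R|) := by
            gcongr
        _ = 1 := by rw [← Real.exp_add]; simp
    exact absurd hmem.2 (not_le.2 h1)
  have h1 := key 1 ⟨zero_le_one, le_rfl⟩
  have h2 := hγs 1 ⟨zero_le_one, le_rfl⟩
  rw [Complex.ofReal_one, one_mul] at h1 h2
  rw [dist_eq_norm] at h1
  calc ‖η t‖ = ‖γ t + (η t - γ t)‖ := by congr 1; abel
    _ ≤ ‖γ t‖ + ‖η t - γ t‖ := norm_add_le _ _
    _ ≤ M₀ + 1 := by linarith

/-- Entire integral curves starting in a compact set are uniformly bounded for bounded times. -/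
theorem uniform_bound (V : E → E)
    (hV : ∀ r : ℝ, ∃ K : ℝ≥0, LipschitzOnWith K V (closedBall 0 r))
    {T : Type*} [TopologicalSpace T] [CompactSpace T] (γ : T → ℂ → E)
    (hγ : ∀ x t, HasDerivAt (γ x) (V (γ x t)) t) (h0 : Continuous fun x => γ x 0) (R : ℝ) :
    ∃ M, ∀ x, ∀ t : ℂ, ‖t‖ ≤ R → ‖γ x t‖ ≤ M := by
  have hloc : ∀ x : T, ∃ U ∈ 𝓝 x, ∃ M, ∀ y ∈ U, ∀ t : ℂ, ‖t‖ ≤ R → ‖γ y t‖ ≤ M := by
    intro x
    obtain ⟨δ, hδ, M, hM⟩ := local_bound V hV (γ x) (hγ x) R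
    refine ⟨{y | dist (γ y 0) (γ x 0) < δ}, ?_, M, ?_⟩
    · exact (isOpen_lt (h0.dist continuous_const) continuous_const).mem_nhds (by simpa using hδ)
    · intro y hy t ht
      exact hM (γ y) (hγ y) hy t ht
  choose U hU M hM using hloc
  obtain ⟨s, hs⟩ := isCompact_univ.elim_nhds_subcover U (fun x _ => hU x)
  refine ⟨∑ x ∈ s, |M x|, ?_⟩
  intro y t ht
  have hy := hs.2 (mem_univ y)
  rw [mem_iUnion₂] at hy
  obtain ⟨x, hx, hyx⟩ := hy
  calc ‖γ y t‖ ≤ M x := hM x y hyx t ht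
    _ ≤ |M x| := le_abs_self _
    _ ≤ _ := Finset.single_le_sum (f := fun x => |M x|) (fun i _ => abs_nonneg _) hx

/-- Continuously differentiable maps of a finite dimensional space are Lipschitz on balls. -/
lemma lipschitz_ball [FiniteDimensional ℂ E] (V : E → E) (hV : ContDiff ℂ 1 V) (r : ℝ) :
    ∃ K : ℝ≥0, LipschitzOnWith K V (closedBall 0 r) := by
  have : ProperSpace E := FiniteDimensional.proper ℂ E
  have hc : Continuous (fun x => fderiv ℂ V x) := hV.continuous_fderiv one_ne_zero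
  obtain ⟨C, hC⟩ := (isCompact_closedBall (0 : E) r).exists_bound_of_continuousOn
    hc.continuousOn
  refine ⟨C.toNNReal, ?_⟩
  have hconv : Convex ℝ (closedBall (0 : E) r) := by
    let _ : NormedSpace ℝ E := NormedSpace.restrictScalars ℝ ℂ E
    exact convex_closedBall _ _
  apply hconv.lipschitzOnWith_of_nnnorm_fderiv_le (𝕜 := ℂ)
  · intro x _
    exact hV.differentiable one_ne_zero x
  · intro x hx
    rw [← NNReal.coe_le_coe, coe_nnnorm]
    exact (hC x hx).trans (Real.le_coe_toNNReal C)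

end Pool.Agent.Lib.MP_acc6f5_ag
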