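import Mathlib

/-!
# Interpolation by entire functions
-/

open scoped Topology
open Filter

namespace Pool.Agent.Lib.MP_acc6f5_ag

lemma interp_step (a : ℕ → ℂ) (ha : Function.Injective a) (h0 : ∀ n, a n ≠ 0) (n : ℕ) (c : ℂ) :
    ∃ p : ℂ → ℂ, Differentiable ℂ p ∧ (∀ j < n, p (a j) = 0) ∧ p (a n) = c ∧
      ∀ z, ‖z‖ ≤ ‖a n‖ / 2 → ‖p z‖ ≤ (1 / 2) ^ n := by
  let q : ℂ → ℂ := fun z => c * ∏ j ∈ Finset.range n, ((z - a j) / (a n - a j))
  have hq : Differentiable ℂ q := by
    apply Differentiable.const_mul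
    apply Differentiable.fun_finsetProd
    intro j _
    exact (differentiable_id.sub_const _).div_const _
  have hcont : Continuous q := hq.continuous
  obtain ⟨M, hM⟩ := (isCompact_closedBall (0 : ℂ) (‖a n‖ / 2)).exists_bound_of_continuousOn
    hcont.continuousOn
  have hM0 : 0 ≤ M := le_trans (norm_nonneg _)
    (hM 0 (by simp; positivity))
  obtain ⟨k, hk⟩ : ∃ k : ℕ, M * (1 / 2) ^ k ≤ (1 / 2 : ℝ) ^ n := by
    have ht : Tendsto (fun k : ℕ => M * (1 / 2 : ℝ) ^ k) atTop (𝓝 (M * 0)) :=
      (tendsto_pow_atTop_nhds_zero_of_lt_one (by norm_num) (by norm_num)).const_mul M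
    rw [mul_zero] at ht
    have := ht.eventually (gt_mem_nhds (show (0 : ℝ) < (1 / 2) ^ n by positivity))
    obtain ⟨k, hk⟩ := this.exists
    exact ⟨k, hk.le⟩
  refine ⟨fun z => q z * (z / a n) ^ k, ?_, ?_, ?_, ?_⟩
  · exact hq.mul ((differentiable_id.div_const _).pow k)
  · intro j hj
    have : q (a j) = 0 := by
      show c * _ = 0
      rw [Finset.prod_eq_zero (Finset.mem_range.2 hj) (by simp), mul_zero]
    simp [this]
  · have h1 : ∏ j ∈ Finset.range n, ((a n - a j) / (a n - a j)) = 1 := by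
      apply Finset.prod_eq_one
      intro j hj
      apply div_self
      rw [sub_ne_zero]
      exact fun h => (Finset.mem_range.1 hj).ne' (ha h)
    show c * _ * _ = c
    rw [h1, div_self (h0 n)]
    simp
  · intro z hz
    have h1 : ‖z / a n‖ ≤ 1 / 2 := by
      rw [norm_div, div_le_iff₀ (norm_pos_iff.2 (h0 n))]
      linarith
    have h2 : ‖q z‖ ≤ M := hM z (by simpa using hz)
    calc ‖q z * (z / a n) ^ k‖ = ‖q z‖ * ‖z / a n‖ ^ k := by rw [norm_mul, norm_pow]
      _ ≤ M * (1 / 2) ^ k := by gcongr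
      _ ≤ _ := hk

/-- The terms of the interpolating series. -/
noncomputable def interpTerm (a : ℕ → ℂ) (ha : Function.Injective a) (h0 : ∀ n, a n ≠ 0)
    (b : ℕ → ℂ) (n : ℕ) : ℂ → ℂ :=
  Classical.choose (interp_step a ha h0 n (b n - ∑ m : Fin n, interpTerm a ha h0 b m (a n)))
termination_by n
decreasing_by all_goals exact m.2

lemma interpTerm_spec (a : ℕ → ℂ) (ha : Function.Injective a) (h0 : ∀ n, a n ≠ 0)
    (b : ℕ → ℂ) (n : ℕ) : Differentiable ℂ (interpTerm a ha h0 b n) ∧
      (∀ j < n, interpTerm a ha h0 b n (a j) = 0) ∧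
      interpTerm a ha h0 b n (a n) = b n - ∑ m : Fin n, interpTerm a ha h0 b m (a n) ∧
      ∀ z, ‖z‖ ≤ ‖a n‖ / 2 → ‖interpTerm a ha h0 b n z‖ ≤ (1 / 2) ^ n := by
  have h : interpTerm a ha h0 b n = Classical.choose
      (interp_step a ha h0 n (b n - ∑ m : Fin n, interpTerm a ha h0 b m (a n))) := by
    rw [interpTerm]
  rw [h]
  exact Classical.choose_spec
    (interp_step a ha h0 n (b n - ∑ m : Fin n, interpTerm a ha h0 b m (a n)))

/-- **Interpolation**: for a sequence tending to infinity and arbitrary values there is an entire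
function with these values. -/
theorem exists_entire_interp (a : ℕ → ℂ) (ha : Function.Injective a) (h0 : ∀ n, a n ≠ 0)
    (hlim : Tendsto (fun n => ‖a n‖) atTop atTop) (b : ℕ → ℂ) :
    ∃ φ : ℂ → ℂ, Differentiable ℂ φ ∧ ∀ n, φ (a n) = b n := by
  set p := interpTerm a ha h0 b with hp
  have hspec := interpTerm_spec a ha h0 b
  rw [← hp] at hspec
  have hbig : ∀ R : ℝ, ∃ N, ∀ n ≥ N, ∀ z : ℂ, ‖z‖ ≤ R → ‖p n z‖ ≤ (1 / 2) ^ n := by
    intro R
    obtain ⟨N, hN⟩ := eventually_atTop.1 (hlim.eventually_ge_atTop (2 * R))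
    refine ⟨N, fun n hn z hz => (hspec n).2.2.2 z ?_⟩
    have := hN n hn
    linarith
  have hsummable : ∀ z, Summable fun n => p n z := by
    intro z
    obtain ⟨N, hN⟩ := hbig ‖z‖
    rw [← summable_nat_add_iff N]
    refine Summable.of_norm_bounded (g := fun n => (1 / 2 : ℝ) ^ (n + N)) ?_ ?_
    · rw [summable_nat_add_iff N]
      exact summable_geometric_of_lt_one (by norm_num) (by norm_num)
    · intro n
      exact hN (n + N) (by omega) z le_rfl
  refine ⟨fun z => ∑' n, p n z, ?_, ?_⟩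
  · intro z₀
    obtain ⟨N, hN⟩ := hbig (‖z₀‖ + 1)
    have heq : (fun z => ∑' n, p n z) =
        fun z => ∑ n ∈ Finset.range N, p n z + ∑' n, p (n + N) z := by
      funext z
      exact ((hsummable z).sum_add_tsum_nat_add N).symm
    rw [heq]
    apply DifferentiableAt.fun_add
    · apply DifferentiableAt.fun_sum
      intro n _
      exact (hspec n).1 z₀
    · have hon : DifferentiableOn ℂ (fun z => ∑' n, p (n + N) z) (Metric.ball z₀ 1) := by
        apply Complex.differentiableOn_tsum_of_summable_norm (u := fun n => (1 / 2 : ℝ) ^ (n + N))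
        · rw [summable_nat_add_iff N]
          exact summable_geometric_of_lt_one (by norm_num) (by norm_num)
        · intro n
          exact (hspec (n + N)).1.differentiableOn
        · exact Metric.isOpen_ball
        · intro n z hz
          apply hN (n + N) (by omega)
          have h1 : dist z z₀ < 1 := hz
          have h2 : ‖z‖ ≤ ‖z₀‖ + ‖z - z₀‖ := by
            calc ‖z‖ = ‖z₀ + (z - z₀)‖ := by ring_nf
              _ ≤ _ := norm_add_le _ _
          rw [dist_eq_norm] at h1
          linarith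
      exact hon.differentiableAt (Metric.isOpen_ball.mem_nhds (Metric.mem_ball_self one_pos))
  · intro n
    show ∑' m, p m (a n) = b n
    rw [← (hsummable (a n)).sum_add_tsum_nat_add (n + 1)]
    have h1 : ∑' m, p (m + (n + 1)) (a n) = 0 := by
      have : ∀ m, p (m + (n + 1)) (a n) = 0 := fun m => (hspec _).2.1 n (by omega)
      simp [this]
    rw [h1, add_zero, Finset.sum_range_succ, (hspec n).2.2.1, Finset.sum_range]
    ring

end Pool.Agent.Lib.MP_acc6f5_ag
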